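import Pool.Agent.Helper73.V7.Ell
import Pool.Agent.Helper15.V7.Lst
import Pool.Agent.Helper15.GD.Conv

/-!
# The motives of elliptic surfaces and abelian covers are abelian if their twists are uniruled

Let `R ⊆ K` be a finite abelian extension of function fields of surfaces over `Ω`, algebraically
closed of characteristic zero (the complex numbers), and let `γ` be as below. Let every intermediate
field `M` with a cyclic Galois group `Gal(M / R)` satisfy one of the following conditions, or let `γ`
act trivially on `H 2 M`.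

(1) `IsTwist`: `M = B(w)`, `w ^ n ∈ B`, `n = [M : B]`, for the function field `B` of some surface,
`R ⊆ B ⊆ M` (for example `B = R`), and for some `a`, `b` the threefold
`v ^ a * (1 - v) ^ b = (s * w) ^ n` over `B` is uniruled, where `n` and `gcd(a, b)` are relatively
prime and `a`, `b`, `a + b` are not multiples of `n`. It is the quotient by the cyclic group of the
product of the surface with the curve `u ^ n = v ^ a * (1 - v) ^ b`. On a smooth model of `B` with a
branch curve with normal crossings, let `L⁻¹` be the eigensheaf of the cover for a faithful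
character. For `n = 3, 4, 6` this curve can be chosen elliptic, and the canonical class of a minimal
model of the threefold over `B` is the inverse image of `K_B + L`. So the threefold is uniruled if
`K_B + L` is not pseudo-effective, by the minimal model program; this implies `h ^ {2, 0} = 0` for the
character. (So if `S` is any surface with an automorphism `σ` of order three, it is enough that
`K_B + L` is not pseudo-effective for `B = S / σ` and one of the two characters.) Other examples, for
all `n`:

* all elliptic surfaces `y ^ 2 = x ^ 3 + A(w ^ n) * x + B(w ^ n)`, `deg A ≤ 2`, `deg B ≤ 3`, more generally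
  `y ^ 2 + a₁ * x * y + a₃ * y = x ^ 3 + a₂ * x ^ 2 + a₄ * x + a₆`, where `aᵢ` is a polynomial in `w ^ n`
  of degree at most `i / 2` (`elliptic` below). The geometric genus is `⌈n / 2⌉ - 1`, there are five
  moduli, and the eigenspaces of `H 2` have dimension at most six and
  `h ^ {2, 0} + h ^ {0, 2} ≤ 1`. The proof: `w ^ n = v * (1 - v) / s ^ n` makes the threefold a family of
  rational elliptic surfaces over the `s`-line;
* `F(x, y, w ^ n) = 0`, where the degree of `F` for some weights `a`, `b`, `2 * c` of the variables is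
  at most `a + b + c` (`pullback` below);
* `w ^ n = f ^ s * h ^ t / g ^ (s + t)`, where `s`, `t` are coprime and the degree of
  `f - r ^ t * g + r ^ (s + t) * h` is at most `a + b + c` for some weights `a, b, c` of `x, y, r`, for
  example if `f`, `g`, `h` are of degree two (`Helper9/TR`);
* `w ^ n = f(x, y)`, if for some weights `a`, `b` of `x`, `y` and all `k` prime to `n`,
  `k * deg f ≤ n * (a + b)` or `(n - k) * deg f ≤ n * (a + b)` (`Helper73/V7/Power.lean`).

(2) `IsCurve`: `M = Ω(x, y, w)`, `R ⊆ Ω(x, y)`, `n = [M : Ω(x, y)]`, and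
`w ^ n = f₁(x, y) ^ e₁ * ⋯ * fᵣ(x, y) ^ eᵣ`, branched along a plane curve with components of the
degrees `dᵢ`, where

* either `n ≤ 10`, and for every character of `Gal(M / Ω(x, y))` of order greater than two (and for
  the character of order two if `n = 2`) `h ^ {2, 0}` or `h ^ {0, 2}` is zero, if the curve has only
  nodes (for other singularities the Hodge numbers are smaller); this is so for all curves of degree
  at most five;
* or `n` is arbitrary, there are at most three components, and the degree of the curve is at most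
  four, or is five and there is at most one line.

No condition on the singularities of the curve is imposed.

`G` is the motivic Galois group of a category of motives over `Ω` (André's motives), `H i K` the
realisation of the motive `h^i(X) / N^1` of a smooth projective variety `X` with function field `K`,
where `N^1` is the part supported on divisors, and `γ` an element of `G` which acts trivially on the
Tate motive and on `h^1` of all varieties. Then `γ` acts trivially on `H 2` of every surface which is
dominated by a surface with the function field `K`: its motive is abelian.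

So the motives of all abelian covers of the plane branched along a curve of degree at most four are
abelian (four lines in general position give products of curves), and those of all abelian covers
branched along a curve of degree five with at most one line among its components, or of degree five
and exponent at most ten. The same is true for all abelian covers of exponent at most ten such that
for a nodal curve with the same degrees `h ^ {2, 0} * h ^ {0, 2} = 0` for all characters of order
greater than two and `h ^ {2, 0} ≤ 1` for those of order two (double planes branched along a curve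
of degree at most six: `γ` acts trivially on `H 2 M` for them by André's theorem for K3 surfaces).

An eigenclass for a character of `Gal(K / R)` comes from the fixed field `M` of its kernel, where it
is an eigenclass for a faithful character. Let `C` be the curve `u ^ n = v ^ a (1 - v) ^ b` with its
automorphisms `u ↦ ζ u`. For the eigenspace `E` of `H 2 M` and the eigenspace `E'` of `H 1 C` for
the inverse character, `E ⊗ E'` comes from the threefold of (1), `s = u / w`. So `E ⊗ E'` comes from
the first cohomology of a variety `D`. In (2), a rational substitution maps the threefold to a double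
cover or a cubic hypersurface of small degree in a weighted projective space.
-/

set_option autoImplicit false

namespace Pool.Agent.Helper48.Keep.CCM8

open IntermediateField MvPolynomial CategoryTheory Pool.Agent.Helper15.GD

/-- The equation `w ^ n = f₁(x, y) ^ e₁ * ⋯ * fᵣ(x, y) ^ eᵣ`, `n = [M : Ω(x, y)]`, `M = Ω(x, y, w)`,
`R ⊆ Ω(x, y)`, for a plane curve with the homogeneous equation `F₁ * ⋯ * Fᵣ = 0`, where
`Fᵢ(x, y, 1) = fᵢ` and `dᵢ = deg Fᵢ`. Either `n ≤ 10`, the curve is arbitrary, and
`h ^ {2, 0} * h ^ {0, 2} = 0` for all the characters of order different from one and two (and for the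
character of order two if `n = 2`), if the curve has only nodes: the Hodge number `h ^ {2, 0}` of the
character `k` or `-k` is zero if and only if `∑ dᵢ * (k * eᵢ % n) ≤ 2 * n`. Or there are at most three
components and the degree is at most four, or five and at most one `Fᵢ` is linear. -/
def IsCurve (Ω R M : Type) [Field Ω] [Field R] [Field M] [Algebra Ω M] [Algebra R M] : Prop :=
  ∃ (n r : ℕ) (d e : Fin r → ℕ) (f : Fin r → MvPolynomial (Fin 2) Ω) (x y w : M),
    (∀ r : R, algebraMap R M r ∈ adjoin Ω {x, y}) ∧ adjoin Ω {x, y, w} = ⊤ ∧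
    Module.finrank (adjoin Ω {x, y}) M = n ∧
    (∀ i, (f i).totalDegree ≤ d i) ∧ n ∣ ∑ i, d i * e i ∧
    (n ≤ 10 ∧ (∀ k < n, 2 * k ≠ n ∨ n = 2 → ∑ i, d i * (k * e i % n) ≤ 2 * n ∨
        ∑ i, d i * ((n - k) * e i % n) ≤ 2 * n) ∨
      r ≤ 3 ∧ (∑ i, d i ≤ 4 ∨ ∑ i, d i = 5 ∧ (Finset.univ.filter fun i => d i = 1).card ≤ 1)) ∧
    w ^ n = ∏ i, aeval ![x, y] (f i) ^ e i

/-- `M = B(w)`, `w ^ n ∈ B`, `n = [M : B]`, where `B = Ω(x, y, z)` is the function field of a surface
and contains `R`, and the threefold `v ^ a * (1 - v) ^ b = (s * w) ^ n` over `B` is uniruled. -/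
def IsTwist (Ω R M : Type) [Field Ω] [Field R] [Field M] [Algebra Ω M] [Algebra R M] : Prop :=
  ∃ (n a b : ℕ) (x y z w : M), IsAlgebraic (adjoin Ω {x, y}) z ∧
    (∀ r : R, algebraMap R M r ∈ adjoin Ω {x, y, z}) ∧ adjoin Ω {x, y, z, w} = ⊤ ∧
    Module.finrank (adjoin Ω {x, y, z}) M = n ∧ w ^ n ∈ adjoin Ω {x, y, z} ∧
    (a.gcd b).Coprime n ∧ ¬ n ∣ a ∧ ¬ n ∣ b ∧ ¬ n ∣ a + b ∧
    ∀ (N : Ext Ω) (g : M →ₐ[Ω] N) (v s : N), Transcendental g.fieldRange v →
      v ^ a * (1 - v) ^ b = (s * g w) ^ n →
      (⟨adjoin Ω {g x, g y, g z, v, s}⟩ : Ext Ω).Uniruled 3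

/-- Examples of `IsTwist` for all `n`: `M = Ω(x, y, w)`, `n = [M : Ω(x, y, w ^ n)]`,
`R ⊆ Ω(x, y, w ^ n)`, and `F(x, y, w ^ n) = 0` for a polynomial `F ≠ 0` of degree at most `a + b + c`
for some weights `a, b, 2 * c` of its variables. (For `n ≤ 2` the field `M` is uniruled.) -/
theorem pullback {Ω R M : Type} [Field Ω] [IsAlgClosed Ω] [Field R] [Field M] [Algebra Ω R]
    [Algebra Ω M] [Algebra R M] [IsScalarTower Ω R M] [FiniteDimensional R M] [IsGalois R M]
    (n a b c : ℕ) (F : MvPolynomial (Fin 3) Ω) (x y w : M)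
    (hR : ∀ r : R, algebraMap R M r ∈ adjoin Ω {x, y, w ^ n}) (hM : adjoin Ω {x, y, w} = ⊤)
    (hn : Module.finrank (adjoin Ω {x, y, w ^ n}) M = n) (habc : 0 < a + b + c) (hF : F ≠ 0)
    (hd : ∀ m ∈ F.support, a * m 0 + b * m 1 + 2 * c * m 2 ≤ a + b + c)
    (h0 : aeval ![x, y, w ^ n] F = 0) :
    (⟨M⟩ : Ext Ω).Uniruled 2 ∨ IsTwist Ω R M := by
  refine (Pool.Agent.Helper73.V7.IsPullback.row
    ⟨n, a, b, c, F, x, y, w, hR, hM, hn, habc, hF, hd, h0⟩).imp Ext.uniruled_of fun h => ?_
  obtain ⟨n, a, b, x, y, z, w, h1, h2, h3, h4, h5, h6, h7, h8, h9, h10⟩ :=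
    Pool.Agent.Helper73.V7.IsTwist.of_row3 h
  exact ⟨n, a, b, x, y, z, w, h1, h2, h3, h4, h5, h6, h7, h8, h9,
    fun N g v s hv hs => Ext.uniruled_of (h10 N g v s hv hs)⟩

/-- The elliptic surfaces `y ^ 2 + a₁ * x * y + a₃ * y = x ^ 3 + a₂ * x ^ 2 + a₄ * x + a₆`, where `aᵢ` is
a polynomial of degree at most `i / 2` in `w ^ n`. (For `n ≤ 2` the field `M` is uniruled.) -/
theorem elliptic {Ω R M : Type} [Field Ω] [IsAlgClosed Ω] [Field R] [Field M] [Algebra Ω R]
    [Algebra Ω M] [Algebra R M] [IsScalarTower Ω R M] [FiniteDimensional R M] [IsGalois R M]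
    (n : ℕ) (a₁ a₂ a₃ a₄ a₆ : Polynomial Ω) (h₁ : 2 * a₁.natDegree ≤ 1)
    (h₂ : 2 * a₂.natDegree ≤ 2) (h₃ : 2 * a₃.natDegree ≤ 3) (h₄ : 2 * a₄.natDegree ≤ 4)
    (h₆ : 2 * a₆.natDegree ≤ 6) (x y w : M)
    (hR : ∀ r : R, algebraMap R M r ∈ adjoin Ω {x, y, w ^ n}) (hM : adjoin Ω {x, y, w} = ⊤)
    (hn : Module.finrank (adjoin Ω {x, y, w ^ n}) M = n)
    (h : y ^ 2 + Polynomial.aeval (w ^ n) a₁ * x * y + Polynomial.aeval (w ^ n) a₃ * y =
      x ^ 3 + Polynomial.aeval (w ^ n) a₂ * x ^ 2 + Polynomial.aeval (w ^ n) a₄ * x +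
        Polynomial.aeval (w ^ n) a₆) :
    (⟨M⟩ : Ext Ω).Uniruled 2 ∨ IsTwist Ω R M := by
  obtain ⟨a, b, c, F, habc, hF, hd, h0⟩ :=
    Pool.Agent.Helper73.V7.elliptic_data n a₁ a₂ a₃ a₄ a₆ h₁ h₂ h₃ h₄ h₆ x y w h
  exact pullback n a b c F x y w hR hM hn habc hF hd h0

/-- `K / R` is a finite abelian extension. -/
def IsAbelian {Ω K : Type} [Field Ω] [Field K] [Algebra Ω K] (R : IntermediateField Ω K) : Prop :=
  FiniteDimensional R K ∧ IsGalois R K ∧ ∀ g h : K ≃ₐ[R] K, g * h = h * g

/-- If `M / R` has a cyclic Galois group, then `γ` acts trivially on `H 2 M`, or `M / R` satisfies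
one of the conditions. -/
def IsGood {Ω L G K : Type} [Field Ω] [Field L] [Group G] [Field K] [Algebra Ω K]
    (T : MotivicCoh Ω L G) (γ : G) (R : IntermediateField Ω K) (M : IntermediateField R K) : Prop :=
  IsCyclic (M ≃ₐ[R] M) → T.act 2 ⟨M⟩ γ = 𝟙 (T.H 2 ⟨M⟩) ∨ IsTwist Ω R M ∨ IsCurve Ω R M

/-- Every element of the motivic Galois group which is trivial on the abelian motives is trivial on
the motive of a surface dominated by an abelian cover whose cyclic subcovers satisfy the
conditions. -/
theorem result {Ω L G : Type} [Field Ω] [IsAlgClosed Ω] [CharZero Ω] [Field L] [IsAlgClosed L]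
    [CharZero L] [Group G] (T : MotivicCoh Ω L G) (hT : T.IsMotivic) (γ : G)
    (hγ : T.IsTrivialOnAbelian γ) (K : Ext Ω) (R : IntermediateField Ω K) (hR : IsAbelian R)
    (hM : ∀ M : IntermediateField R K, IsGood T γ R M) (K₀ : Ext Ω) (j : K₀.Hom K)
    (hj : j.IsAlgebraic) : T.act 2 K₀ γ = 𝟙 (T.H 2 K₀) := by
  obtain ⟨hfin, hgal, hab⟩ := hR
  have hγ' : (T.toTheory hT).IsTrivialOnAbelian γ := by
    refine ⟨Units.ext hγ.1, fun D _ _ hD s => ?_⟩
    exact congrArg (fun f => f.hom s) (hγ.2 ⟨D⟩ hD)
  refine ModuleCat.hom_ext (LinearMap.ext fun t => ?_)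
  refine Pool.Agent.Helper15.QM.dominated (T.toTheory hT) 2 (K₀ := K₀) (K := K) j hj γ
    (fun t => ?_) t
  refine Pool.Agent.Helper15.WC.act_rows (T.toTheory hT) R hab 2 γ (fun M hc s hs => ?_) t
  have hG : IsGalois R M := (Pool.Agent.Helper75.WC.exists_restrict hab M).1
  rcases hM M hc with h | h
  · exact congrArg (fun f => f.hom s) h
  have hrow : Pool.Agent.Helper75.QC.Uniruled Ω M 2 ∨ Pool.Agent.Helper35.V7.LstN Ω R M := by
    rcases h with ⟨n, a, b, x, y, z, w, hz, hR, hM', hn, hw, hab', h1, h2, h3, huni⟩ |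
      ⟨n, r, d, e, f, x, y, w, hR, hM', rfl, h⟩
    · refine Or.inr (Or.inr (Pool.Agent.Helper73.V7.IsTwist.row ⟨n, a, b, x, y, z, w, hz, hR, hM',
        hn, hw, hab', h1, h2, h3, fun N _ _ g v s hv hs => ?_⟩))
      obtain ⟨E, g', S, θ, hS, hk⟩ := huni ⟨N⟩ g v s hv hs
      exact ⟨E, _, _, g', S, θ, hS, hk⟩
    · exact Pool.Agent.Helper48.V7.IsListed.row ⟨x, y, w, hR, hM', Or.inl ⟨r, d, e, f, h⟩⟩
  exact Pool.Agent.Helper15.V7.act_rowB (T.toTheory hT) R M (hrow.elim Or.inl
    (Pool.Agent.Helper15.V7.rowB_of_lst (T.toTheory hT).toBaseTheory)) γ hγ' s hs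

end Pool.Agent.Helper48.Keep.CCM8
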