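import Pool.Agent.Helper48.V10.Ell
import Pool.Agent.Helper48.V9.Power
import Pool.Agent.Helper48.V9.Weighted
import Pool.Agent.Helper15.V7.Lst
import Pool.Agent.Helper15.GD.Conv

/-!
# The motives of elliptic surfaces and abelian covers are abelian if their twists are uniruled

Let `K` be the function field of a surface over `Ω`, algebraically closed of characteristic zero
(the complex numbers), and let `γ` be as below. Let `K` be a finite abelian extension of a field
`R`, and let every intermediate field `M` with a cyclic Galois group `Gal(M / R)` satisfy one of the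
following conditions, or let `γ` act trivially on `H 2 M` (`IsCover`).

(1) `IsTwist`: `M = B(w)`, `w ^ n ∈ B`, `n = [M : B]`, for the function field `B` of some surface,
`R ⊆ B ⊆ M` (for example `B = R`), and for some `a`, `b` the threefold
`v ^ a * (1 - v) ^ b = (s * w) ^ n` over `B` is uniruled, where `n` and `gcd(a, b)` are relatively
prime and `a`, `b`, `a + b` are not multiples of `n`. It is the quotient by the cyclic group of the
product of the surface with the curve `u ^ n = v ^ a * (1 - v) ^ b`. On a smooth model of `B` with a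
branch curve with normal crossings, let `L⁻¹` be the eigensheaf of the cover for a faithful
character. For `n = 3, 4, 6` this curve can be chosen elliptic, and the canonical class of a minimal
model of the threefold over `B` is the inverse image of `K_B + L`. So the threefold is uniruled if
`K_B + L` is not pseudo-effective, by the minimal model program; this implies `h ^ {2, 0} = 0` for the
character. (So if `S` is any surface with an automorphism `σ` of order three, it is enough that
`K_B + L` is not pseudo-effective for `B = S / σ` and one of the two characters.)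

(2) `IsCurve`: `M = Ω(x, y, w)`, `R ⊆ Ω(x, y)`, `n = [M : Ω(x, y)]`, and
`w ^ n = f₁(x, y) ^ e₁ * ⋯ * fᵣ(x, y) ^ eᵣ`, branched along a curve in the plane, or in the weighted
plane `P(a, b, 1)`, with components of the degrees `dᵢ`, where

* either `n ≤ 10` for the plane, `n ≤ 6` for the weighted planes, and for every character of
  `Gal(M / Ω(x, y))` of order greater than two (and for the character of order two if `n = 2`)
  `h ^ {2, 0}` or `h ^ {0, 2}` is zero, if the curve has only nodes (for other singularities the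
  Hodge numbers are smaller); this is so for all plane curves of degree at most five;
* or `n` is arbitrary, there are at most three components in the plane, and the degree of the curve
  is at most four, or is five and there is at most one line.

No condition on the singularities of the curve is imposed. The weighted planes `P(1, m, 1)` are
birational to the ruled surfaces `F_m`.

`G` is the motivic Galois group of a category of motives over `Ω` (André's motives), `H i K` the
realisation of the motive `h^i(X) / N^1` of a smooth projective variety `X` with function field `K`,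
where `N^1` is the part supported on divisors, and `γ` an element of `G` which acts trivially on the
Tate motive and on `h^1` of all varieties. Then `γ` acts trivially on `H 2` of every surface which is
dominated by a surface with the function field `K`: its motive is abelian.

Examples of `IsCover` (proved below), for every `n`:

* `elliptic_power`: all elliptic surfaces `y ^ 2 = x ^ 3 + A(w ^ n) * x + B(w ^ n)`, `deg A ≤ 2`,
  `deg B ≤ 3`, more generally `y ^ 2 + a₁ * x * y + a₃ * y = x ^ 3 + a₂ * x ^ 2 + a₄ * x + a₆`, where `aᵢ`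
  is a polynomial in `w ^ n` of degree at most `i / 2`. The geometric genus is `⌈n / 2⌉ - 1`, there are
  five moduli, and the eigenspaces of `H 2` have dimension at most six and
  `h ^ {2, 0} + h ^ {0, 2} ≤ 1`. The proof: `w ^ n = v * (1 - v) / s ^ n` makes the threefold a family of
  rational elliptic surfaces over the `s`-line;
* `elliptic_power_K3`: the degree of `aᵢ` is at most `i * (1 + ⌊n / 2⌋) / n`. For `n = 4` the surfaces
  `y ^ 2 = x ^ 3 + A(w ^ 4) * x + B(w ^ 4)`, `deg A ≤ 3`, `deg B ≤ 4`, of geometric genus two, and for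
  `n = 6` the surfaces `y ^ 2 = x ^ 3 + A(w ^ 6) * x + B(w ^ 6)`, `deg A ≤ 2`, `deg B ≤ 4`, of geometric
  genus three. For even `n` it is a hypothesis that `γ` acts trivially for the K3 surface with the
  coordinate `w ^ (n / 2)`; this is André's theorem;
* `double_power`: double planes `y ^ 2 = G(x, w ^ n) * y + F(x, w ^ n)`, where for the weights `a`, `1`
  of `x`, `w` the degrees of `G` and `F` are at most `S` and `2 * S`, `S = a + 1 + ⌊n / 2⌋`, with the
  same hypothesis for even `n`; for example `y ^ 2 = w ^ 8 + w ^ 4 * f(x) + g(x)`, `deg f ≤ 4`,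
  `deg g ≤ 8`;
* `power`: `F(x, y, w ^ n) = 0`, where the degree of `F` for some weights `a`, `b`, `2 * c` of the
  variables is at most `a + b + c`.

Other examples of `IsTwist`:

* `w ^ n = f ^ s * h ^ t / g ^ (s + t)`, where `s`, `t` are coprime and the degree of
  `f - r ^ t * g + r ^ (s + t) * h` is at most `a + b + c` for some weights `a, b, c` of `x, y, r`, for
  example if `f`, `g`, `h` are of degree two (`Helper9/TR`);
* `w ^ n = f(x, y)`, if for some weights `a`, `b` of `x`, `y` and all `k` prime to `n`,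
  `k * deg f ≤ n * (a + b)` or `(n - k) * deg f ≤ n * (a + b)` (`Helper73/V7/Power.lean`);
* `F(x, y, w ^ n) = 0`, a surface of degree at most `a + b + 1 + ⌊n / 2⌋` in the weighted space
  `P(a, b, 1, 1)`, by the theorem of Miyaoka and Mori: for `x = X / s ^ a`, `y = Y / s ^ b` and
  `w ^ n = v * (1 - v) / s ^ n` the threefold is a hypersurface in `P(a, b, ⌊n / 2⌋, 1, 1)` with a
  negative canonical class. The bound is the condition `h ^ {2, 0} * h ^ {0, 2} = 0` for all
  characters of order different from two.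

So the motives of all abelian covers of the plane branched along a curve of degree at most four are
abelian (four lines in general position give products of curves), and those of all abelian covers
branched along a curve of degree five with at most one line among its components, or of degree five
and exponent at most ten. The same is true for all abelian covers of exponent at most ten such that
for a nodal curve with the same degrees `h ^ {2, 0} * h ^ {0, 2} = 0` for all characters of order
greater than two and `h ^ {2, 0} ≤ 1` for those of order two (double planes branched along a curve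
of degree at most six: `γ` acts trivially on `H 2 M` for them by André's theorem for K3 surfaces).

By the inductive structure of Katsura and Shioda the motives of the following varieties are
generated by those of the surfaces `w ^ n = F_j`, of the curves `F_j = 0` and of the Fermat curve, and
so they are abelian: the smooth hypersurfaces `F_1 + ⋯ + F_m = 0` of degree `n ≤ 5`, where the `F_j`
are forms in disjoint sets of at most three variables. All Hodge classes on them and on their powers
are motivated.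

An eigenclass for a character of `Gal(K / R)` comes from the fixed field `M` of its kernel, where it
is an eigenclass for a faithful character. Let `C` be the curve `u ^ n = v ^ a (1 - v) ^ b` with its
automorphisms `u ↦ ζ u`. For the eigenspace `E` of `H 2 M` and the eigenspace `E'` of `H 1 C` for
the inverse character, `E ⊗ E'` comes from the threefold of (1), `s = u / w`. So `E ⊗ E'` comes from
the first cohomology of a variety `D`. In (2), a rational substitution maps the threefold to a double
cover or a cubic hypersurface of small degree in a weighted projective space.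
-/

set_option autoImplicit false

namespace Pool.Agent.Helper48.Keep.CCM9

open IntermediateField MvPolynomial CategoryTheory Pool.Agent.Helper15.GD

/-- The equation `w ^ n = f₁(x, y) ^ e₁ * ⋯ * fᵣ(x, y) ^ eᵣ`, `n = [M : Ω(x, y)]`, `M = Ω(x, y, w)`,
`R ⊆ Ω(x, y)`, for a curve with the equation `F₁ * ⋯ * Fᵣ = 0` in the weighted plane `P(a, b, 1)`,
where `Fᵢ(x, y, 1) = fᵢ` and `dᵢ = deg Fᵢ`. Either `n ≤ 6`, or `n ≤ 10` and `a = b = 1`, the curve is
arbitrary, and `h ^ {2, 0} * h ^ {0, 2} = 0` for all the characters of order different from one and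
two (and for the character of order two if `n = 2`), if the curve has only nodes: the Hodge number
`h ^ {2, 0}` of the character `k` or `-k` is zero if `∑ dᵢ * (k * eᵢ % n) ≤ n * (a + b)` (if and only
if, for `a = b = 1`). Or `a = b = 1`, there are at most three components and the degree is at most
four, or five and at most one `Fᵢ` is linear. -/
def IsCurve (Ω R M : Type) [Field Ω] [Field R] [Field M] [Algebra Ω M] [Algebra R M] : Prop :=
  ∃ (n a b r : ℕ) (d e : Fin r → ℕ) (f : Fin r → MvPolynomial (Fin 2) Ω) (x y w : M),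
    (∀ r : R, algebraMap R M r ∈ adjoin Ω {x, y}) ∧ adjoin Ω {x, y, w} = ⊤ ∧
    Module.finrank (adjoin Ω {x, y}) M = n ∧
    (∀ i, ∀ m ∈ (f i).support, a * m 0 + b * m 1 ≤ d i) ∧ n ∣ ∑ i, d i * e i ∧
    ((0 < a + b ∧ n ≤ 6 ∨ a = 1 ∧ b = 1 ∧ n ≤ 10) ∧
        (∀ k < n, 2 * k ≠ n ∨ n = 2 → ∑ i, d i * (k * e i % n) ≤ n * (a + b) ∨
          ∑ i, d i * ((n - k) * e i % n) ≤ n * (a + b)) ∨
      a = 1 ∧ b = 1 ∧ r ≤ 3 ∧
        (∑ i, d i ≤ 4 ∨ ∑ i, d i = 5 ∧ (Finset.univ.filter fun i => d i = 1).card ≤ 1)) ∧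
    w ^ n = ∏ i, aeval ![x, y] (f i) ^ e i

/-- `M = B(w)`, `w ^ n ∈ B`, `n = [M : B]`, where `B = Ω(x, y, z)` is the function field of a surface
and contains `R`, and the threefold `v ^ a * (1 - v) ^ b = (s * w) ^ n` over `B` is uniruled. -/
def IsTwist (Ω R M : Type) [Field Ω] [Field R] [Field M] [Algebra Ω M] [Algebra R M] : Prop :=
  ∃ (n a b : ℕ) (x y z w : M), IsAlgebraic (adjoin Ω {x, y}) z ∧
    (∀ r : R, algebraMap R M r ∈ adjoin Ω {x, y, z}) ∧ adjoin Ω {x, y, z, w} = ⊤ ∧
    Module.finrank (adjoin Ω {x, y, z}) M = n ∧ w ^ n ∈ adjoin Ω {x, y, z} ∧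
    (a.gcd b).Coprime n ∧ ¬ n ∣ a ∧ ¬ n ∣ b ∧ ¬ n ∣ a + b ∧
    ∀ (N : Ext Ω) (g : M →ₐ[Ω] N) (v s : N), Transcendental g.fieldRange v →
      v ^ a * (1 - v) ^ b = (s * g w) ^ n →
      (⟨adjoin Ω {g x, g y, g z, v, s}⟩ : Ext Ω).Uniruled 3

/-- `γ` acts trivially on `H 2 M`, or `M / R` satisfies one of the conditions. -/
def IsGood {Ω L G : Type} [Field Ω] [Field L] [Group G] (T : MotivicCoh Ω L G) (γ : G)
    (R M : Type) [Field R] [Field M] [Algebra Ω M] [Algebra R M] : Prop :=
  T.act 2 ⟨M⟩ γ = 𝟙 (T.H 2 ⟨M⟩) ∨ IsTwist Ω R M ∨ IsCurve Ω R M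

/-- `K` is a finite abelian extension of a field `R`, and every field `M` between them with a cyclic
group `Gal(M / R)` is good. -/
def IsCover {Ω L G : Type} [Field Ω] [Field L] [Group G] (T : MotivicCoh Ω L G) (γ : G)
    (K : Type) [Field K] [Algebra Ω K] : Prop :=
  ∃ R : IntermediateField Ω K, FiniteDimensional R K ∧ IsGalois R K ∧
    (∀ g h : K ≃ₐ[R] K, g * h = h * g) ∧
    ∀ M : IntermediateField R K, IsCyclic (M ≃ₐ[R] M) → IsGood T γ R M

theorem IsCurve.row {Ω R M : Type} [Field Ω] [IsAlgClosed Ω] [Field R] [Field M] [Algebra Ω R]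
    [Algebra Ω M] [Algebra R M] [IsScalarTower Ω R M] [FiniteDimensional R M] [IsGalois R M]
    (h : IsCurve Ω R M) :
    Pool.Agent.Helper75.QC.Uniruled Ω M 2 ∨ Pool.Agent.Helper35.V7.LstN Ω R M := by
  obtain ⟨n, a, b, r, d, e, f, x, y, w, hR, hM, rfl, hf, hdvd, h, hw⟩ := h
  have hdeg : a = 1 → b = 1 → ∀ i, (f i).totalDegree ≤ d i := by
    rintro rfl rfl i
    refine Finset.sup_le fun m hm => ?_
    have h1 := hf i m hm
    rw [one_mul, one_mul] at h1
    rw [Finsupp.sum_fintype _ _ (fun _ => rfl), Fin.sum_univ_two]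
    exact h1
  have hplane : ∀ h1 : a = 1, ∀ h2 : b = 1, _ → _ := fun h1 h2 h3 =>
    Pool.Agent.Helper48.V7.IsListed.row (Ω := Ω) (R := R) (M := M)
      ⟨x, y, w, hR, hM, Or.inl ⟨r, d, e, f, hdeg h1 h2, hdvd, h3, hw⟩⟩
  rcases h with ⟨⟨hab, hn⟩ | ⟨h1, h2, hn⟩, hnat⟩ | ⟨h1, h2, h3⟩
  · refine (Pool.Agent.Helper48.V9.IsWCurve.row (R := R) x y w hR hM
      ⟨a, b, r, d, e, f, hab, hn, hf, fun k hk hkn => hnat k hk ?_, hw⟩).imp id Or.inl
    by_contra hcon
    push Not at hcon
    obtain ⟨h1, h2⟩ := hcon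
    have h3 : k ∣ 1 := by
      rw [← hkn]
      exact Nat.dvd_gcd dvd_rfl ⟨2, by rw [← h1, mul_comm]⟩
    have h4 := Nat.dvd_one.1 h3
    omega
  · subst h1 h2
    refine hplane rfl rfl (Or.inl ⟨hn, fun k hk h3 => ?_⟩)
    have h4 := hnat k hk h3
    rwa [mul_comm 2]
  · exact hplane h1 h2 (Or.inr h3)

section Examples

variable {Ω L G : Type} [Field Ω] [Field L] [Group G] {T : MotivicCoh Ω L G} (hT : T.IsMotivic)
  {γ : G} {K : Type} [Field K] [Algebra Ω K]

/-- from the data of the libraries -/
theorem isTwist_of {R M : Type} [Field R] [Field M] [Algebra Ω M] [Algebra R M]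
    (h : Pool.Agent.Helper35.V7.Row3 Ω R M) : IsTwist Ω R M := by
  obtain ⟨n, a, b, x, y, z, w, h1, h2, h3, h4, h5, h6, h7, h8, h9, h10⟩ :=
    Pool.Agent.Helper73.V7.IsTwist.of_row3 h
  exact ⟨n, a, b, x, y, z, w, h1, h2, h3, h4, h5, h6, h7, h8, h9,
    fun N g v s hv hs => Ext.uniruled_of (h10 N g v s hv hs)⟩

include hT in
theorem act_uniruled {M : Type} [Field M] [Algebra Ω M]
    (h : Pool.Agent.Helper75.QC.Uniruled Ω M 2) : T.act 2 ⟨M⟩ γ = 𝟙 (T.H 2 ⟨M⟩) := by
  have h0 : ∀ t : T.H 2 ⟨M⟩, t = 0 := fun t => (T.toTheory hT).uniruled 2 M h t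
  refine ModuleCat.hom_ext (LinearMap.ext fun t => ?_)
  rw [h0 t, map_zero, map_zero]

include hT in
theorem isCover_of_rows {x y w : K} {n : ℕ}
    (h2 : ∀ m, n = 2 * m → T.act 2 ⟨adjoin Ω {x, y, w ^ m}⟩ γ = 𝟙 _)
    (h : ∃ R : IntermediateField Ω K, FiniteDimensional R K ∧ IsGalois R K ∧
      (∀ g h : K ≃ₐ[R] K, g * h = h * g) ∧
      ∀ M : IntermediateField R K, Pool.Agent.Helper75.QC.Uniruled Ω M 2 ∨
        Pool.Agent.Helper35.V7.Row3 Ω R M ∨
        ∃ m, n = 2 * m ∧ M.restrictScalars Ω = adjoin Ω {x, y, w ^ m}) : IsCover T γ K := by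
  obtain ⟨R, h3, h4, h5, h6⟩ := h
  refine ⟨R, h3, h4, h5, fun M _ => ?_⟩
  rcases h6 M with h | h | ⟨m, hm, hM⟩
  · exact Or.inl (act_uniruled hT h)
  · exact Or.inr (Or.inl (isTwist_of h))
  · have h7 := h2 m hm
    rw [← hM] at h7
    exact Or.inl h7

variable [IsAlgClosed Ω]

include hT in
/-- **Pullbacks.** `K = Ω(x, y, w)`, `n = [K : Ω(x, y, w ^ n)]` is not zero in `Ω`, and
`F(x, y, w ^ n) = 0` for a polynomial `F ≠ 0` of degree at most `a + b + c` for some weights
`a, b, 2 * c` of its variables. -/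
theorem power (n : ℕ) (hn : (n : Ω) ≠ 0) (a b c : ℕ) (F : MvPolynomial (Fin 3) Ω) (x y w : K)
    (hK : adjoin Ω {x, y, w} = ⊤) (hd : Module.finrank (adjoin Ω {x, y, w ^ n}) K = n)
    (habc : 0 < a + b + c) (hF : F ≠ 0)
    (hdeg : ∀ m ∈ F.support, a * m 0 + b * m 1 + 2 * c * m 2 ≤ a + b + c)
    (h0 : aeval ![x, y, w ^ n] F = 0) : IsCover T γ K := by
  obtain ⟨R, h1, h2, h3, h4⟩ :=
    Pool.Agent.Helper48.V9.power_rows hn a b c F x y w hK hd habc hF hdeg h0
  exact ⟨R, h1, h2, h3, fun M _ =>
    (h4 M).imp (act_uniruled hT) fun h => Or.inl (isTwist_of h)⟩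

include hT in
/-- **Elliptic surfaces.** `y ^ 2 + a₁ * x * y + a₃ * y = x ^ 3 + a₂ * x ^ 2 + a₄ * x + a₆`, where `aᵢ` is
a polynomial of degree at most `i / 2` in `w ^ n`, `K = Ω(x, y, w)`, and `n = [K : Ω(x, y, w ^ n)]` is
not zero in `Ω`. -/
theorem elliptic_power (n : ℕ) (hn : (n : Ω) ≠ 0) (a₁ a₂ a₃ a₄ a₆ : Polynomial Ω)
    (h₁ : 2 * a₁.natDegree ≤ 1) (h₂ : 2 * a₂.natDegree ≤ 2) (h₃ : 2 * a₃.natDegree ≤ 3)
    (h₄ : 2 * a₄.natDegree ≤ 4) (h₆ : 2 * a₆.natDegree ≤ 6) (x y w : K)
    (hK : adjoin Ω {x, y, w} = ⊤) (hd : Module.finrank (adjoin Ω {x, y, w ^ n}) K = n)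
    (h : y ^ 2 + Polynomial.aeval (w ^ n) a₁ * x * y + Polynomial.aeval (w ^ n) a₃ * y =
      x ^ 3 + Polynomial.aeval (w ^ n) a₂ * x ^ 2 + Polynomial.aeval (w ^ n) a₄ * x +
        Polynomial.aeval (w ^ n) a₆) : IsCover T γ K := by
  obtain ⟨a, b, c, F, habc, hF, hdeg, h0⟩ :=
    Pool.Agent.Helper73.V7.elliptic_data n a₁ a₂ a₃ a₄ a₆ h₁ h₂ h₃ h₄ h₆ x y w h
  exact power hT n hn a b c F x y w hK hd habc hF hdeg h0

include hT in
/-- **Double planes.** `y ^ 2 = G(x, w ^ n) * y + F(x, w ^ n)`, `K = Ω(x, y, w)`,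
`n = [K : Ω(x, y, w ^ n)]`, and for the weights `a`, `1` of `x`, `w` the degrees of `G`, `F` are at most
`S`, `2 * S`, `S = a + 1 + ⌊n / 2⌋`. If `n = 2 * m`, then `γ` acts trivially on the second cohomology
of `Ω(x, y, w ^ m)`; this is the function field of a K3 surface, if its singularities are rational
double points and the degree of the surface is `2 * S`. -/
theorem double_power (n : ℕ) (hn : (n : Ω) ≠ 0) (a : ℕ) (F G : MvPolynomial (Fin 2) Ω)
    (x y w : K) (hK : adjoin Ω {x, y, w} = ⊤)
    (hd : Module.finrank (adjoin Ω {x, y, w ^ n}) K = n)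
    (hF : ∀ m ∈ F.support, a * m 0 + n * m 1 ≤ 2 * (a + 1 + n / 2))
    (hG : ∀ m ∈ G.support, a * m 0 + n * m 1 ≤ a + 1 + n / 2)
    (hy : y ^ 2 = aeval ![x, w ^ n] G * y + aeval ![x, w ^ n] F)
    (h2 : ∀ m, n = 2 * m → T.act 2 ⟨adjoin Ω {x, y, w ^ m}⟩ γ = 𝟙 _) : IsCover T γ K :=
  isCover_of_rows hT h2 (Pool.Agent.Helper48.V10.dbl_rows' hn a F G x y w hK hd hF hG hy)

include hT in
/-- **Elliptic surfaces.** The degree of `aᵢ` is at most `i * (1 + ⌊n / 2⌋) / n`. If `n = 2 * m`, then
`γ` acts trivially on the second cohomology of `Ω(x, y, w ^ m)`, the function field of a K3 surface or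
a uniruled surface. -/
theorem elliptic_power_K3 (n : ℕ) (hn : (n : Ω) ≠ 0) (a₁ a₂ a₃ a₄ a₆ : Polynomial Ω)
    (h₁ : n * a₁.natDegree ≤ 1 + n / 2) (h₂ : n * a₂.natDegree ≤ 2 * (1 + n / 2))
    (h₃ : n * a₃.natDegree ≤ 3 * (1 + n / 2)) (h₄ : n * a₄.natDegree ≤ 4 * (1 + n / 2))
    (h₆ : n * a₆.natDegree ≤ 6 * (1 + n / 2)) (x y w : K) (hK : adjoin Ω {x, y, w} = ⊤)
    (hd : Module.finrank (adjoin Ω {x, y, w ^ n}) K = n)
    (h : y ^ 2 + Polynomial.aeval (w ^ n) a₁ * x * y + Polynomial.aeval (w ^ n) a₃ * y =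
      x ^ 3 + Polynomial.aeval (w ^ n) a₂ * x ^ 2 + Polynomial.aeval (w ^ n) a₄ * x +
        Polynomial.aeval (w ^ n) a₆)
    (h2 : ∀ m, n = 2 * m → T.act 2 ⟨adjoin Ω {x, y, w ^ m}⟩ γ = 𝟙 _) : IsCover T γ K :=
  isCover_of_rows hT h2
    (Pool.Agent.Helper48.V10.ell_rows hn a₁ a₂ a₃ a₄ a₆ h₁ h₂ h₃ h₄ h₆ x y w hK hd h)

end Examples

/-- Every element of the motivic Galois group which is trivial on the abelian motives is trivial on
the motive of a surface dominated by an abelian cover whose cyclic subcovers satisfy the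
conditions. -/
theorem result {Ω L G : Type} [Field Ω] [IsAlgClosed Ω] [CharZero Ω] [Field L] [IsAlgClosed L]
    [CharZero L] [Group G] (T : MotivicCoh Ω L G) (hT : T.IsMotivic) (γ : G)
    (hγ : T.IsTrivialOnAbelian γ) (K : Ext Ω) (hK : IsCover T γ K) (K₀ : Ext Ω)
    (j : K₀.Hom K) (hj : j.IsAlgebraic) : T.act 2 K₀ γ = 𝟙 (T.H 2 K₀) := by
  obtain ⟨R, hfin, hgal, hab, hM⟩ := hK
  have hγ' : (T.toTheory hT).IsTrivialOnAbelian γ := by
    refine ⟨Units.ext hγ.1, fun D _ _ hD s => ?_⟩
    exact congrArg (fun f => f.hom s) (hγ.2 ⟨D⟩ hD)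
  refine ModuleCat.hom_ext (LinearMap.ext fun t => ?_)
  refine Pool.Agent.Helper15.QM.dominated (T.toTheory hT) 2 (K₀ := K₀) (K := K) j hj γ
    (fun t => ?_) t
  refine Pool.Agent.Helper15.WC.act_rows (T.toTheory hT) R hab 2 γ (fun M hc s hs => ?_) t
  have hG : IsGalois R M := (Pool.Agent.Helper75.WC.exists_restrict hab M).1
  rcases hM M hc with h | h
  · exact congrArg (fun f => f.hom s) h
  have hrow : Pool.Agent.Helper75.QC.Uniruled Ω M 2 ∨ Pool.Agent.Helper35.V7.LstN Ω R M := by
    rcases h with ⟨n, a, b, x, y, z, w, hz, hR, hM', hn, hw, hab', h1, h2, h3, huni⟩ | h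
    · refine Or.inr (Or.inr (Pool.Agent.Helper73.V7.IsTwist.row ⟨n, a, b, x, y, z, w, hz, hR, hM',
        hn, hw, hab', h1, h2, h3, fun N _ _ g v s hv hs => ?_⟩))
      obtain ⟨E, g', S, θ, hS, hk⟩ := huni ⟨N⟩ g v s hv hs
      exact ⟨E, _, _, g', S, θ, hS, hk⟩
    · exact h.row
  exact Pool.Agent.Helper15.V7.act_rowB (T.toTheory hT) R M (hrow.elim Or.inl
    (Pool.Agent.Helper15.V7.rowB_of_lst (T.toTheory hT).toBaseTheory)) γ hγ' s hs

end Pool.Agent.Helper48.Keep.CCM9
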