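import Pool.Agent.Helper48.KC.Dec
import Pool.Agent.Helper48.KC.Fg
import Pool.Agent.Helper48.KC.Hyper
import Pool.Agent.Helper48.KC.Prod
import Pool.Agent.Helper48.KC.Ternary
import Pool.Agent.Helper48.V10.Ell
import Pool.Agent.Helper48.V9.Power
import Pool.Agent.Helper48.V9.Weighted
import Pool.Agent.Helper73.V7.Power
import Pool.Agent.Helper15.V7.Lst
import Pool.Agent.Helper15.GD.Conv

/-!
# The motives of elliptic surfaces, abelian covers and hypersurfaces are abelian if their twists are uniruled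

`Ω` is algebraically closed of characteristic zero (the complex numbers), `G` is the motivic Galois
group of a category of motives over `Ω` (André's motives), `H i K` the realisation of the motive
`h^i(X) / N^1` of a smooth projective variety `X` with function field `K`, where `N^1` is the part
supported on divisors, and `γ` an element of `G` which acts trivially on all abelian motives: on the
Tate motive and on `h^0`, `h^1` of all varieties (`IsTrivial`). Let `Q` be a class of given fields such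
that `γ` acts trivially on `H i K` for all `i` and all `K` in `Q`: the empty class, or the function
fields of K3 surfaces, by André's theorem. Then `γ` acts trivially on `H i K` for all `i` (`result`), if
`K` is in the smallest class of fields (`IsBuilt Q`) which contains `Q` and the finitely generated
fields which are uniruled of degree two (all curves and ruled surfaces), and is closed under

* products;
* domination: if `K` is in the class, then so are the fields `K₀ ⊆ K` over which it is algebraic;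
* abelian covers: if `K` is a finite abelian extension of a field `R`, and every intermediate field
  `M` with a cyclic Galois group `Gal(M / R)` is in the class or satisfies (1) or (2), then `K` is in
  the class.

(1) `IsTwist`: `M = B(w)`, `w ^ n ∈ B`, `n = [M : B]`, for the function field `B` of some surface,
`R ⊆ B ⊆ M` (for example `B = R`), and for some `a`, `b` the threefold
`v ^ a * (1 - v) ^ b = (s * w) ^ n` over `B` is uniruled, where `n` and `gcd(a, b)` are relatively
prime and `a`, `b`, `a + b` are not multiples of `n`. It is the quotient by the cyclic group of the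
product of the surface with the curve `u ^ n = v ^ a * (1 - v) ^ b`. On a smooth model of `B` with a
branch curve with normal crossings, let `L⁻¹` be the eigensheaf of the cover for a faithful
character. For `n = 3, 4, 6` this curve can be chosen elliptic, and the canonical class of a minimal
model of the threefold over `B` is the inverse image of `K_B + L`. So the threefold is uniruled if
`K_B + L` is not pseudo-effective, by the minimal model program; this implies `h ^ {2, 0} = 0` for the
character. (So if `S` is any surface with an automorphism `σ` of order three, it is enough that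
`K_B + L` is not pseudo-effective for `B = S / σ` and one of the two characters.)

(2) `IsCurve`: `M = Ω(x, y, w)`, `R ⊆ Ω(x, y)`, `n = [M : Ω(x, y)]`, and
`w ^ n = f₁(x, y) ^ e₁ * ⋯ * fᵣ(x, y) ^ eᵣ`, branched along a curve in the plane, or in the weighted
plane `P(a, b, 1)`, with components of the degrees `dᵢ`, where

* either `n ≤ 10` for the plane, `n ≤ 6` for the weighted planes, and for every character of
  `Gal(M / Ω(x, y))` of order greater than two (and for the character of order two if `n = 2`)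
  `h ^ {2, 0}` or `h ^ {0, 2}` is zero, if the curve has only nodes (for other singularities the
  Hodge numbers are smaller); this is so for all plane curves of degree at most five;
* or `n` is arbitrary, there are at most three components in the plane, and the degree of the curve
  is at most four, or is five and there is at most one line.

No condition on the singularities of the curve is imposed. The weighted planes `P(1, m, 1)` are
birational to the ruled surfaces `F_m`.

The field `M = R` (the trivial group) has to be in the class, or `R = Ω(x, y)`, which is the case `n = 1`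
of (2).

Examples. The theorems below are statements about fields only, and hold for every `Q`, for example
for the empty class, if they do not contain a hypothesis on double planes (K3 surfaces). The class
contains all curves (`curve`), and the abelian covers `K / R` such that the cyclic subcovers `M` are in
the class, uniruled of degree two, or satisfy (1) or (2) (`surface`). Surfaces, for every `n`:

* `elliptic_power`: all elliptic surfaces `y ^ 2 = x ^ 3 + A(w ^ n) * x + B(w ^ n)`, `deg A ≤ 2`,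
  `deg B ≤ 3`, more generally `y ^ 2 + a₁ * x * y + a₃ * y = x ^ 3 + a₂ * x ^ 2 + a₄ * x + a₆`, where `aᵢ`
  is a polynomial in `w ^ n` of degree at most `i / 2`. The geometric genus is `⌈n / 2⌉ - 1`, there are
  five moduli, and the eigenspaces of `H 2` have dimension at most six and
  `h ^ {2, 0} + h ^ {0, 2} ≤ 1`. The proof: `w ^ n = v * (1 - v) / s ^ n` makes the threefold a family of
  rational elliptic surfaces over the `s`-line;
* `elliptic_power_K3`: the degree of `aᵢ` is at most `i * (1 + ⌊n / 2⌋) / n`. For `n = 4` the surfaces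
  `y ^ 2 = x ^ 3 + A(w ^ 4) * x + B(w ^ 4)`, `deg A ≤ 3`, `deg B ≤ 4`, of geometric genus two, and for
  `n = 6` the surfaces `y ^ 2 = x ^ 3 + A(w ^ 6) * x + B(w ^ 6)`, `deg A ≤ 2`, `deg B ≤ 4`, of geometric
  genus three. For even `n` it is a hypothesis that the K3 surface with the coordinate `w ^ (n / 2)` is
  in the class;
* `double_power`: double planes `y ^ 2 = G(x, w ^ n) * y + F(x, w ^ n)`, where for the weights `a`, `1`
  of `x`, `w` the degrees of `G` and `F` are at most `S` and `2 * S`, `S = a + 1 + ⌊n / 2⌋`, with the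
  same hypothesis for even `n`; for example `y ^ 2 = w ^ 8 + w ^ 4 * f(x) + g(x)`, `deg f ≤ 4`,
  `deg g ≤ 8`;
* `power`: `F(x, y, w ^ n) = 0`, where the degree of `F` for some weights `a`, `b`, `2 * c` of the
  variables is at most `a + b + c`;
* `plane`: `w ^ n = f(x, y)` for all `n`, where for some weights `a`, `b` of `x`, `y` the degree of `f` is at
  most `2 * (a + b)`, for example all `f` of degree at most four;
* `double_plane`: `w ^ 2 = f(x, y)`, where the degree of `f` is at most `2 * (a + b + 1)`, if these double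
  planes (K3 surfaces) are in `Q` (`HasDoublePlanes`).

Other examples of `IsTwist`:

* `w ^ n = f ^ s * h ^ t / g ^ (s + t)`, where `s`, `t` are coprime and the degree of
  `f - r ^ t * g + r ^ (s + t) * h` is at most `a + b + c` for some weights `a, b, c` of `x, y, r`, for
  example if `f`, `g`, `h` are of degree two (`Helper9/TR`);
* `w ^ n = f(x, y)`, if for some weights `a`, `b` of `x`, `y` and all `k` prime to `n`,
  `k * deg f ≤ n * (a + b)` or `(n - k) * deg f ≤ n * (a + b)` (`Helper73/V7/Power.lean`);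
* `F(x, y, w ^ n) = 0`, a surface of degree at most `a + b + 1 + ⌊n / 2⌋` in the weighted space
  `P(a, b, 1, 1)`, by the theorem of Miyaoka and Mori: for `x = X / s ^ a`, `y = Y / s ^ b` and
  `w ^ n = v * (1 - v) / s ^ n` the threefold is a hypersurface in `P(a, b, ⌊n / 2⌋, 1, 1)` with a
  negative canonical class. The bound is the condition `h ^ {2, 0} * h ^ {0, 2} = 0` for all
  characters of order different from two.

Higher dimension:

* `ternary`: the affine varieties `F(x, y, z) = 1` for the quasi-homogeneous polynomials `F` of degree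
  `d ≤ 2 * (a + b + 1)` in three variables with the weights `a, b, 1`. They are cyclic covers
  `w ^ n = f(x, y)` of the weighted plane. For `d = 2 * (a + b + 1)` it is a hypothesis that the double
  planes (K3 surfaces) are in the class. `binary`: the same for all quasi-homogeneous polynomials in
  one or two variables;
* `join`: if the affine varieties `F₁ = 1` and `F₂ = 1` are in the class, then so is `F₁ + F₂ = 1`. It is
  dominated by the product of these varieties and of a Fermat curve (the inductive structure of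
  Katsura and Shioda);
* `hypersurface`: the hypersurfaces `F_1 + ⋯ + F_m = 0` in weighted projective spaces, where the `F_j`
  are any polynomials as above of the same degree in disjoint sets of variables;
* `threefold`: the hypersurfaces `F(x, y, z) + G(u, v) = 0` of degree `d ≤ 2 * (a + b + 1)` in
  `P(a, b, 1, e, 1)`: the Calabi-Yau threefolds of degree five in `P(1, 1, 1, 1, 1)`, six in
  `P(2, 1, 1, 1, 1)`, eight in `P(3, 2, 1, 1, 1)` and in `P(2, 2, 1, 2, 1)`, and all others of this form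
  and of degree `a + b + e + 2`, `e ≤ a + b` (for `e = a + b` with the hypothesis on K3 surfaces), and
  with this hypothesis the threefolds of general type of degree six in `P(1, 1, 1, 1, 1)`;
* `fourfold`: the hypersurfaces `F(x, y, z) + G(u, v, w) = 0`, for example the Calabi-Yau fourfolds of
  degree six in `P(1, 1, 1, 1, 1, 1)`, with the hypothesis on K3 surfaces;
* `product`: the cyclic covers `z ^ n = f_1 * ⋯ * f_m` for polynomials `f_j` in disjoint sets of
  variables, such that the cyclic covers `w ^ n = f_j` are in the class (`line`: all polynomials in one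
  variable; `plane`; `double_plane`): varieties of general type of all dimensions, and the Calabi-Yau
  varieties `z ^ 2 = f_1(x_1, y_1) * ⋯ * f_m(x_m, y_m)`, `deg f_j ≤ 6`, with the hypothesis on K3
  surfaces;
* the quotients of the products of surfaces and curves as above by all finite groups (`prod` and
  `sub`), for example the Hilbert schemes of points on these surfaces, and all abelian covers of the
  plane branched along five lines in general position: the lines are tangent to a conic, so these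
  surfaces are dominated by a product of two curves;
* `fixed`: the class `Q` can be enlarged by the fixed fields of subgroups of finite groups, whose
  cohomology comes from other fixed fields.

The whole motive of a smooth projective variety `X` of dimension at most three with the function field
`K` is abelian, since `N^1 h^2(X)` and `N^1 h^3(X)` come from divisors and from `h^1` of surfaces. In
dimension four the statement is about `h^4(X) / N^1`.

So the motives of all abelian covers of the plane branched along a curve of degree at most four are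
abelian (four lines in general position give products of curves), and those of all abelian covers
branched along a curve of degree five with at most one line among its components, or of degree five
and exponent at most ten. The same is true for all abelian covers of exponent at most ten such that
for a nodal curve with the same degrees `h ^ {2, 0} * h ^ {0, 2} = 0` for all characters of order
greater than two and `h ^ {2, 0} ≤ 1` for those of order two (double planes branched along a curve
of degree at most six: `γ` acts trivially on `H 2 M` for them by André's theorem for K3 surfaces).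
The whole motives of the smooth hypersurfaces `F_1 + ⋯ + F_m = 0` of degree at most six in projective
spaces of any dimension, where the `F_j` are forms in disjoint sets of at most three variables, are
generated by those of the surfaces `w ^ n = F_j`, of the curves `F_j = 0` and of the Fermat curve, by
the inductive structure, and so they are abelian. All Hodge classes on these varieties and on their
powers are motivated.

The proof for `cover`: if `M` satisfies (1) or (2), then it is the function field of a surface, `H i M`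
is zero for `i > 2`, and `γ` acts trivially on `H 0 M`, `H 1 M` by hypothesis. For `i = 2`,
an eigenclass for a character of `Gal(K / R)` comes from the fixed field `M` of its kernel, where it
is an eigenclass for a faithful character. Let `C` be the curve `u ^ n = v ^ a (1 - v) ^ b` with its
automorphisms `u ↦ ζ u`. For the eigenspace `E` of `H 2 M` and the eigenspace `E'` of `H 1 C` for
the inverse character, `E ⊗ E'` comes from the threefold of (1), `s = u / w`. So `E ⊗ E'` comes from
the first cohomology of a variety `D`. In (2), a rational substitution maps the threefold to a double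
cover or a cubic hypersurface of small degree in a weighted projective space.
-/

set_option autoImplicit false

namespace Pool.Agent.Results.MP_b8862a_ag.CyclicCoverMotives

open IntermediateField MvPolynomial CategoryTheory MonoidalCategory Pool.Agent.Helper15.GD

/-- The equation `w ^ n = f₁(x, y) ^ e₁ * ⋯ * fᵣ(x, y) ^ eᵣ`, `n = [M : Ω(x, y)]`, `M = Ω(x, y, w)`,
`R ⊆ Ω(x, y)`, for a curve with the equation `F₁ * ⋯ * Fᵣ = 0` in the weighted plane `P(a, b, 1)`,
where `Fᵢ(x, y, 1) = fᵢ` and `dᵢ = deg Fᵢ`. Either `n ≤ 6`, or `n ≤ 10` and `a = b = 1`, the curve is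
arbitrary, and `h ^ {2, 0} * h ^ {0, 2} = 0` for all the characters of order different from one and
two (and for the character of order two if `n = 2`), if the curve has only nodes: the Hodge number
`h ^ {2, 0}` of the character `k` or `-k` is zero if `∑ dᵢ * (k * eᵢ % n) ≤ n * (a + b)` (if and only
if, for `a = b = 1`). Or `a = b = 1`, there are at most three components and the degree is at most
four, or five and at most one `Fᵢ` is linear. -/
def IsCurve (Ω R M : Type) [Field Ω] [Field R] [Field M] [Algebra Ω M] [Algebra R M] : Prop :=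
  ∃ (n a b r : ℕ) (d e : Fin r → ℕ) (f : Fin r → MvPolynomial (Fin 2) Ω) (x y w : M),
    (∀ r : R, algebraMap R M r ∈ adjoin Ω {x, y}) ∧ adjoin Ω {x, y, w} = ⊤ ∧
    Module.finrank (adjoin Ω {x, y}) M = n ∧
    (∀ i, ∀ m ∈ (f i).support, a * m 0 + b * m 1 ≤ d i) ∧ n ∣ ∑ i, d i * e i ∧
    ((0 < a + b ∧ n ≤ 6 ∨ a = 1 ∧ b = 1 ∧ n ≤ 10) ∧
        (∀ k < n, 2 * k ≠ n ∨ n = 2 → ∑ i, d i * (k * e i % n) ≤ n * (a + b) ∨
          ∑ i, d i * ((n - k) * e i % n) ≤ n * (a + b)) ∨
      a = 1 ∧ b = 1 ∧ r ≤ 3 ∧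
        (∑ i, d i ≤ 4 ∨ ∑ i, d i = 5 ∧ (Finset.univ.filter fun i => d i = 1).card ≤ 1)) ∧
    w ^ n = ∏ i, aeval ![x, y] (f i) ^ e i

/-- `M = B(w)`, `w ^ n ∈ B`, `n = [M : B]`, where `B = Ω(x, y, z)` is the function field of a surface
and contains `R`, and the threefold `v ^ a * (1 - v) ^ b = (s * w) ^ n` over `B` is uniruled. -/
def IsTwist (Ω R M : Type) [Field Ω] [Field R] [Field M] [Algebra Ω M] [Algebra R M] : Prop :=
  ∃ (n a b : ℕ) (x y z w : M), IsAlgebraic (adjoin Ω {x, y}) z ∧
    (∀ r : R, algebraMap R M r ∈ adjoin Ω {x, y, z}) ∧ adjoin Ω {x, y, z, w} = ⊤ ∧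
    Module.finrank (adjoin Ω {x, y, z}) M = n ∧ w ^ n ∈ adjoin Ω {x, y, z} ∧
    (a.gcd b).Coprime n ∧ ¬ n ∣ a ∧ ¬ n ∣ b ∧ ¬ n ∣ a + b ∧
    ∀ (N : Ext Ω) (g : M →ₐ[Ω] N) (v s : N), Transcendental g.fieldRange v →
      v ^ a * (1 - v) ^ b = (s * g w) ^ n →
      (⟨adjoin Ω {g x, g y, g z, v, s}⟩ : Ext Ω).Uniruled 3

/-- `K₁`, `K₂` are finitely generated, and `N` is the function field of the product of varieties with
the function fields `K₁`, `K₂`. -/
structure IsComposite {Ω K₁ K₂ N : Type} [Field Ω] [Field K₁] [Algebra Ω K₁] [Field K₂]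
    [Algebra Ω K₂] [Field N] [Algebra Ω N] (a : K₁ →ₐ[Ω] N) (b : K₂ →ₐ[Ω] N) : Prop where
  left : (⊤ : IntermediateField Ω K₁).FG
  right : (⊤ : IntermediateField Ω K₂).FG
  gen : a.fieldRange ⊔ b.fieldRange = ⊤
  trdeg : Algebra.trdeg Ω N = Algebra.trdeg Ω K₁ + Algebra.trdeg Ω K₂

/-- **The Künneth formula.** The cohomology of a product is generated by the products, which are
homomorphisms of motives. -/
def Kunneth {Ω L G : Type} [Field Ω] [Field L] [Group G] (T : MotivicCoh Ω L G) : Prop :=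
  ∀ (K₁ K₂ N : Ext Ω) (a : K₁ →ₐ[Ω] N) (b : K₂ →ₐ[Ω] N), IsComposite a b → ∀ i : ℕ,
    ∃ m : ∀ p q : ℕ, p + q = i → (T.H p K₁ ⊗ T.H q K₂ ⟶ T.H i N),
      (∀ (p q : ℕ) (h : p + q = i) (γ : G),
        m p q h ≫ T.act i N γ = (T.act p K₁ γ ⊗ₘ T.act q K₂ γ) ≫ m p q h) ∧
      ∀ (V : ModuleCat.{0} L) (f g : T.H i N ⟶ V),
        (∀ (p q : ℕ) (h : p + q = i), m p q h ≫ f = m p q h ≫ g) → f = g

/-- `γ` acts trivially on all abelian motives: on the Tate motive and on `h^0(D)`, `h^1(D)` for every
variety `D`. -/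
def IsTrivial {Ω L G : Type} [Field Ω] [Field L] [Group G] (T : MotivicCoh Ω L G) (γ : G) : Prop :=
  T.tate γ = 1 ∧ ∀ D : Ext Ω, D.FG →
    T.act 0 D γ = 𝟙 (T.H 0 D) ∧ T.act 1 D γ = 𝟙 (T.H 1 D)

/-- `K` is a finite abelian extension of `R`. -/
def IsAbelianExt {Ω K : Type} [Field Ω] [Field K] [Algebra Ω K] (R : IntermediateField Ω K) :
    Prop :=
  FiniteDimensional R K ∧ IsGalois R K ∧ ∀ g h : K ≃ₐ[R] K, g * h = h * g

/-- `M / R` is cyclic, and neither `IsTwist` nor `IsCurve`. -/
def IsBlock (Ω R M : Type) [Field Ω] [Field R] [Field M] [Algebra Ω M] [Algebra R M] : Prop :=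
  IsCyclic (M ≃ₐ[R] M) ∧ ¬ IsTwist Ω R M ∧ ¬ IsCurve Ω R M

/-- The smallest class of fields which contains the given fields `Q` and the finitely generated
fields which are uniruled of degree two (curves and ruled surfaces), and is closed under the
following constructions.

* `cover`: `K` is a finite abelian extension of a field `R`, and every field `M` between them with a
  cyclic group `Gal(M / R)` is in the class or satisfies one of the conditions `IsTwist`, `IsCurve`;
* `sub`: `K` is algebraic over `K₀`: the variety `K₀` is dominated by the variety `K`;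
* `prod`: `N` is the function field of the product of two varieties with the function fields `K₁`,
  `K₂`. -/
inductive IsBuilt {Ω : Type} [Field Ω] (Q : ∀ (K : Type) [Field K] [Algebra Ω K], Prop) :
    ∀ (K : Type) [Field K] [Algebra Ω K], Prop
  | given (K : Type) [Field K] [Algebra Ω K] : Q K → IsBuilt Q K
  | ruled (K : Type) [Field K] [Algebra Ω K] : (⊤ : IntermediateField Ω K).FG →
      (⟨K⟩ : Ext Ω).Uniruled 2 → IsBuilt Q K
  | cover (K : Type) [Field K] [Algebra Ω K] (R : IntermediateField Ω K) : IsAbelianExt R →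
      (∀ M : IntermediateField R K, IsBlock Ω R M → IsBuilt Q M) → IsBuilt Q K
  | sub (K₀ K : Type) [Field K₀] [Algebra Ω K₀] [Field K] [Algebra Ω K] (g : K₀ →ₐ[Ω] K) :
      (∀ k : K, IsAlgebraic g.fieldRange k) → IsBuilt Q K → IsBuilt Q K₀
  | prod (K₁ K₂ N : Type) [Field K₁] [Algebra Ω K₁] [Field K₂] [Algebra Ω K₂] [Field N]
      [Algebra Ω N] (a : K₁ →ₐ[Ω] N) (b : K₂ →ₐ[Ω] N) : IsComposite a b →
      IsBuilt Q K₁ → IsBuilt Q K₂ → IsBuilt Q N

theorem IsCurve.row {Ω R M : Type} [Field Ω] [IsAlgClosed Ω] [Field R] [Field M] [Algebra Ω R]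
    [Algebra Ω M] [Algebra R M] [IsScalarTower Ω R M] [FiniteDimensional R M] [IsGalois R M]
    (h : IsCurve Ω R M) :
    Pool.Agent.Helper75.QC.Uniruled Ω M 2 ∨ Pool.Agent.Helper35.V7.LstN Ω R M := by
  obtain ⟨n, a, b, r, d, e, f, x, y, w, hR, hM, rfl, hf, hdvd, h, hw⟩ := h
  have hdeg : a = 1 → b = 1 → ∀ i, (f i).totalDegree ≤ d i := by
    rintro rfl rfl i
    refine Finset.sup_le fun m hm => ?_
    have h1 := hf i m hm
    rw [one_mul, one_mul] at h1
    rw [Finsupp.sum_fintype _ _ (fun _ => rfl), Fin.sum_univ_two]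
    exact h1
  have hplane : ∀ h1 : a = 1, ∀ h2 : b = 1, _ → _ := fun h1 h2 h3 =>
    Pool.Agent.Helper48.V7.IsListed.row (Ω := Ω) (R := R) (M := M)
      ⟨x, y, w, hR, hM, Or.inl ⟨r, d, e, f, hdeg h1 h2, hdvd, h3, hw⟩⟩
  rcases h with ⟨⟨hab, hn⟩ | ⟨h1, h2, hn⟩, hnat⟩ | ⟨h1, h2, h3⟩
  · refine (Pool.Agent.Helper48.V9.IsWCurve.row (R := R) x y w hR hM
      ⟨a, b, r, d, e, f, hab, hn, hf, fun k hk hkn => hnat k hk ?_, hw⟩).imp id Or.inl
    by_contra hcon
    push Not at hcon
    obtain ⟨h1, h2⟩ := hcon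
    have h3 : k ∣ 1 := by
      rw [← hkn]
      exact Nat.dvd_gcd dvd_rfl ⟨2, by rw [← h1, mul_comm]⟩
    have h4 := Nat.dvd_one.1 h3
    omega
  · subst h1 h2
    refine hplane rfl rfl (Or.inl ⟨hn, fun k hk h3 => ?_⟩)
    have h4 := hnat k hk h3
    rwa [mul_comm 2]
  · exact hplane h1 h2 (Or.inr h3)

section Geometry

variable {Ω : Type} [Field Ω] {Q : ∀ (K : Type) [Field K] [Algebra Ω K], Prop} {K : Type}
  [Field K] [Algebra Ω K]

/-- a finite set over which all elements are algebraic -/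
theorem exists_finset {n : ℕ} (h : Algebra.trdeg Ω K ≤ (n : Cardinal)) :
    ∃ S : Finset K, S.card ≤ n ∧ ∀ k : K, IsAlgebraic (adjoin Ω (S : Set K)) k := by
  obtain ⟨s, hs⟩ := exists_isTranscendenceBasis Ω K
  have h1 := hs.isAlgebraic_field
  rw [Subtype.range_coe] at h1
  have h2 : Cardinal.mk s ≤ (n : Cardinal) := by
    rw [hs.cardinalMk_eq_trdeg]
    exact h
  have h3 : s.Finite := Cardinal.lt_aleph0_iff_set_finite.1
    (h2.trans_lt Cardinal.natCast_lt_aleph0)
  obtain ⟨S, rfl⟩ := h3.exists_finset_coe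
  refine ⟨S, ?_, fun k => h1.isAlgebraic k⟩
  have h4 : Cardinal.mk (S : Set K) = (S.card : Cardinal) := Cardinal.mk_coe_finset
  rw [h4] at h2
  exact_mod_cast h2

theorem uniruled_of_trdeg {n i : ℕ} (h : Algebra.trdeg Ω K ≤ (n : Cardinal)) (hi : n < i) :
    (⟨K⟩ : Ext Ω).Uniruled i := by
  obtain ⟨S, hS, hk⟩ := exists_finset h
  exact ⟨⟨K⟩, AlgHom.id Ω K, S, 0, hS.trans_lt hi, fun k => subset_adjoin _ _ (Or.inl (hk k))⟩

/-- **Curves.** -/
theorem curve (hK : (⊤ : IntermediateField Ω K).FG) (h : Algebra.trdeg Ω K ≤ 1) :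
    IsBuilt Q K :=
  IsBuilt.ruled K hK (uniruled_of_trdeg (n := 1) (by exact_mod_cast h) one_lt_two)

theorem closed : Pool.Agent.Helper48.KC.Closed Ω (IsBuilt Q) :=
  ⟨fun _ _ _ h1 h2 => curve h1 h2, fun K₀ K _ _ _ _ g hg h => IsBuilt.sub K₀ K g hg h,
    fun K₁ K₂ N _ _ _ _ _ _ a b h1 h2 h3 h4 h5 h6 =>
      IsBuilt.prod K₁ K₂ N a b ⟨h1, h2, h3, h4⟩ h5 h6⟩

/-- **Abelian covers.** A finitely generated field `K` which is an abelian extension of `R`, such that
every cyclic subextension `M / R` is in the class, is uniruled or satisfies one of the two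
conditions. -/
theorem surface (hK : (⊤ : IntermediateField Ω K).FG) (R : IntermediateField Ω K)
    (h1 : FiniteDimensional R K) (h2 : IsGalois R K) (h3 : ∀ g h : K ≃ₐ[R] K, g * h = h * g)
    (h4 : ∀ M : IntermediateField R K, IsCyclic (M ≃ₐ[R] M) →
      IsBuilt Q M ∨ Pool.Agent.Helper75.QC.Uniruled Ω M 2 ∨ IsTwist Ω R M ∨ IsCurve Ω R M) :
    IsBuilt Q K := by
  refine IsBuilt.cover K R ⟨h1, h2, h3⟩ fun M hM => ?_
  obtain ⟨hc, h5, h6⟩ := hM
  rcases h4 M hc with h | h | h | h
  · exact h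
  · have hMK : FiniteDimensional M K := FiniteDimensional.right R M K
    have hfg : (M.restrictScalars Ω).FG :=
      Pool.Agent.Helper48.KC.fg_of_algebraic hK (M.restrictScalars Ω)
        ⟨fun k => (Algebra.IsAlgebraic.isAlgebraic (R := M) k)⟩
    exact IsBuilt.ruled M (Pool.Agent.Helper48.KC.top_fg _ hfg) (Ext.uniruled_of h)
  · exact absurd h h5
  · exact absurd h h6

end Geometry

section Aux

variable {Ω L G : Type} [Field Ω] [Field L] [Group G] {T : MotivicCoh Ω L G} (hT : T.IsMotivic)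
  {γ : G} {K : Type} [Field K] [Algebra Ω K]

include hT in
/-- the degrees above the dimension -/
theorem act_high {n : ℕ} (h : Algebra.trdeg Ω K ≤ (n : Cardinal)) {i : ℕ} (hi : n < i) :
    T.act i ⟨K⟩ γ = 𝟙 (T.H i ⟨K⟩) :=
  (hT.base.vanishing i ⟨K⟩ (uniruled_of_trdeg h hi)).eq_of_src _ _

theorem act_low (hγ : IsTrivial T γ) (hK : (⊤ : IntermediateField Ω K).FG) {i : ℕ} (hi : i < 2) :
    T.act i ⟨K⟩ γ = 𝟙 (T.H i ⟨K⟩) := by
  have h1 := hγ.2 ⟨K⟩ hK
  interval_cases i
  · exact h1.1
  · exact h1.2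

include hT in
theorem act_ruled (hγ : IsTrivial T γ) (hK : (⊤ : IntermediateField Ω K).FG)
    (h : (⟨K⟩ : Ext Ω).Uniruled 2) (i : ℕ) : T.act i ⟨K⟩ γ = 𝟙 (T.H i ⟨K⟩) := by
  rcases lt_or_ge i 2 with hi | hi
  · exact act_low hγ hK hi
  · obtain ⟨E, g, S, θ, hS, hk⟩ := h
    exact (hT.base.vanishing i ⟨K⟩ ⟨E, g, S, θ, hS.trans_le hi, hk⟩).eq_of_src _ _

include hT in
theorem act_sub {K₀ : Type} [Field K₀] [Algebra Ω K₀] (g : K₀ →ₐ[Ω] K)
    (hg : ∀ k : K, IsAlgebraic g.fieldRange k) {i : ℕ}
    (h : T.act i ⟨K⟩ γ = 𝟙 (T.H i ⟨K⟩)) : T.act i ⟨K₀⟩ γ = 𝟙 (T.H i ⟨K₀⟩) := by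
  refine ModuleCat.hom_ext (LinearMap.ext fun t => ?_)
  exact Pool.Agent.Helper15.QM.dominated (T.toTheory hT) i (K₀ := K₀) (K := K) g hg γ
    (fun t => congrArg (fun f => f.hom t) h) t

end Aux

section Surfaces

variable {Ω R M : Type} [Field Ω] [Field R] [Field M] [Algebra Ω M] [Algebra R M]

/-- the function fields of the surfaces `M` are generated by four elements and algebraic over
`Ω(x, y)` -/
theorem alg_of [FiniteDimensional R M] {x y z : M} (hz : IsAlgebraic (adjoin Ω {x, y}) z)
    (hR : ∀ r : R, algebraMap R M r ∈ adjoin Ω {x, y, z}) (m : M) :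
    IsAlgebraic (adjoin Ω {x, y}) m := by
  let A := algebraicClosure (adjoin Ω {x, y}) M
  have h1 : adjoin Ω {x, y, z} ≤ A.restrictScalars Ω := by
    rw [adjoin_le_iff]
    rintro s (rfl | rfl | rfl)
    · exact A.algebraMap_mem ⟨s, subset_adjoin _ _ (by simp)⟩
    · exact A.algebraMap_mem ⟨s, subset_adjoin _ _ (by simp)⟩
    · exact mem_algebraicClosure_iff.2 hz
  obtain ⟨p, hp, hp0⟩ := (Algebra.IsAlgebraic.isAlgebraic (R := R) m)
  have h2 : IsAlgebraic A m := by
    let ρ : R →+* A := (algebraMap R M).codRestrict A fun r => h1 (hR r)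
    refine ⟨p.map ρ, (Polynomial.map_ne_zero_iff ρ.injective).2 hp, ?_⟩
    rw [Polynomial.aeval_def, Polynomial.eval₂_map]
    exact hp0
  have h3 : Algebra.IsAlgebraic (adjoin Ω {x, y}) A := inferInstance
  exact h2.restrictScalars (adjoin Ω {x, y})

theorem IsTwist.facts [FiniteDimensional R M] (h : IsTwist Ω R M) :
    (⊤ : IntermediateField Ω M).FG ∧ Algebra.trdeg Ω M ≤ 2 := by
  obtain ⟨n, a, b, x, y, z, w, hz, hR, hM, -⟩ := h
  refine ⟨?_, ?_⟩
  · rw [← hM]
    exact fg_adjoin_of_finite (by simp)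
  · refine (Pool.Agent.Helper48.KC.trdeg_le_of_alg {x, y} (alg_of (R := R) hz hR)).trans ?_
    exact (Cardinal.mk_insert_le).trans (by rw [Cardinal.mk_singleton, one_add_one_eq_two])

theorem IsCurve.facts [FiniteDimensional R M] (h : IsCurve Ω R M) :
    (⊤ : IntermediateField Ω M).FG ∧ Algebra.trdeg Ω M ≤ 2 := by
  obtain ⟨n, a, b, r, d, e, f, x, y, w, hR, hM, -⟩ := h
  refine ⟨?_, ?_⟩
  · rw [← hM]
    exact fg_adjoin_of_finite (by simp)
  · have hy : IsAlgebraic (adjoin Ω {x, y}) y :=
      isAlgebraic_algebraMap (⟨y, subset_adjoin _ _ (by simp)⟩ : adjoin Ω {x, y})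
    refine (Pool.Agent.Helper48.KC.trdeg_le_of_alg {x, y} (alg_of (R := R) hy fun r => ?_)).trans ?_
    · have h1 : adjoin Ω {x, y} ≤ adjoin Ω {x, y, y} := adjoin.mono _ _ _ (by simp)
      exact h1 (hR r)
    · exact (Cardinal.mk_insert_le).trans (by rw [Cardinal.mk_singleton, one_add_one_eq_two])

end Surfaces

section Main

variable {Ω L G : Type} [Field Ω] [IsAlgClosed Ω] [CharZero Ω] [Field L] [IsAlgClosed L]
    [CharZero L] [Group G]

omit [IsAlgClosed Ω] [CharZero Ω] [IsAlgClosed L] [CharZero L] in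
theorem toTheory_trivial {T : MotivicCoh Ω L G} (hT : T.IsMotivic) {γ : G}
    (hγ : IsTrivial T γ) : (T.toTheory hT).IsTrivialOnAbelian γ := by
  refine ⟨Units.ext hγ.1, fun D _ _ hD s => ?_⟩
  exact congrArg (fun f => f.hom s) (hγ.2 ⟨D⟩ hD).2

/-- the second cohomology of a cyclic cover -/
theorem act_row {T : MotivicCoh Ω L G} (hT : T.IsMotivic) {γ : G} (hγ : IsTrivial T γ)
    {K : Type} [Field K] [Algebra Ω K] (R : IntermediateField Ω K) [FiniteDimensional R K]
    [IsGalois R K] (hab : ∀ g h : K ≃ₐ[R] K, g * h = h * g) (M : IntermediateField R K)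
    (hrow : Pool.Agent.Helper75.QC.Uniruled Ω M 2 ∨ Pool.Agent.Helper35.V7.LstN Ω R M)
    (s : (T.toTheory hT).H 2 M)
    (hs : Pool.Agent.Helper15.WC.IsPrim (T.toTheory hT).toBaseTheory R 2 M s) :
    (T.toTheory hT).act 2 M γ s = s := by
  have hG : IsGalois R M := (Pool.Agent.Helper75.WC.exists_restrict hab M).1
  exact Pool.Agent.Helper15.V7.act_rowB (T.toTheory hT) R M (hrow.elim Or.inl
    (Pool.Agent.Helper15.V7.rowB_of_lst (T.toTheory hT).toBaseTheory)) γ
    (toTheory_trivial hT hγ) s hs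

/-- the cyclic covers -/
theorem twisted {T : MotivicCoh Ω L G} (hT : T.IsMotivic) {γ : G} (hγ : IsTrivial T γ)
    {K : Type} [Field K] [Algebra Ω K] (R : IntermediateField Ω K) [FiniteDimensional R K]
    [IsGalois R K] (hab : ∀ g h : K ≃ₐ[R] K, g * h = h * g) (M : IntermediateField R K)
    (h : IsTwist Ω R M ∨ IsCurve Ω R M) (i : ℕ) (s : (T.toTheory hT).H i M)
    (hs : Pool.Agent.Helper15.WC.IsPrim (T.toTheory hT).toBaseTheory R i M s) :
    (T.toTheory hT).act i M γ s = s := by
  have hG : IsGalois R M := (Pool.Agent.Helper75.WC.exists_restrict hab M).1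
  obtain ⟨hfg, htr⟩ : (⊤ : IntermediateField Ω M).FG ∧ Algebra.trdeg Ω M ≤ 2 :=
    h.elim IsTwist.facts IsCurve.facts
  rcases lt_trichotomy i 2 with hi | rfl | hi
  · exact congrArg (fun f => f.hom s) (act_low hγ hfg hi)
  · have hrow : Pool.Agent.Helper75.QC.Uniruled Ω M 2 ∨ Pool.Agent.Helper35.V7.LstN Ω R M := by
      rcases h with ⟨n, a, b, x, y, z, w, hz, hR, hM', hn, hw, hab', h1, h2, h3, huni⟩ | h
      · refine Or.inr (Or.inr (Pool.Agent.Helper73.V7.IsTwist.row ⟨n, a, b, x, y, z, w, hz, hR, hM',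
          hn, hw, hab', h1, h2, h3, fun N _ _ g v s hv hs => ?_⟩))
        obtain ⟨E, g', S, θ, hS, hk⟩ := huni ⟨N⟩ g v s hv hs
        exact ⟨E, _, _, g', S, θ, hS, hk⟩
      · exact h.row
    exact act_row hT hγ R hab M hrow s hs
  · exact congrArg (fun f => f.hom s)
      (act_high hT (γ := γ) (n := 2) (by exact_mod_cast htr) hi)

theorem act_of_isBuilt {T : MotivicCoh Ω L G} (hT : T.IsMotivic) (hK : Kunneth T) {γ : G}
    (hγ : IsTrivial T γ) {Q : ∀ (K : Type) [Field K] [Algebra Ω K], Prop}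
    (hQ : ∀ (K : Type) [Field K] [Algebra Ω K], Q K → ∀ i, T.act i ⟨K⟩ γ = 𝟙 (T.H i ⟨K⟩))
    {K : Type} [Field K] [Algebra Ω K] (h : IsBuilt Q K) :
    ∀ i : ℕ, T.act i ⟨K⟩ γ = 𝟙 (T.H i ⟨K⟩) := by
  induction h with
  | given K h => exact hQ K h
  | ruled K h1 h2 => exact act_ruled hT hγ h1 h2
  | cover K R h _ ih =>
    intro i
    obtain ⟨h1, h2, h3⟩ := h
    refine ModuleCat.hom_ext (LinearMap.ext fun t => ?_)
    refine Pool.Agent.Helper15.WC.act_rows (T.toTheory hT) R h3 i γ (fun M hc s hs => ?_) t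
    by_cases h5 : IsTwist Ω R M
    · exact twisted hT hγ R h3 M (Or.inl h5) i s hs
    by_cases h6 : IsCurve Ω R M
    · exact twisted hT hγ R h3 M (Or.inr h6) i s hs
    exact congrArg (fun f => f.hom s) (ih M ⟨hc, h5, h6⟩ i)
  | sub K₀ K g hg _ ih => exact fun i => act_sub hT g hg (ih i)
  | prod K₁ K₂ N a b h _ _ ih₁ ih₂ =>
    intro i
    obtain ⟨m, h1, h2⟩ := hK ⟨K₁⟩ ⟨K₂⟩ ⟨N⟩ a b h i
    refine h2 _ _ _ fun p q hpq => ?_
    rw [h1, ih₁, ih₂]
    simp

end Main

section Examples

variable {Ω : Type} [Field Ω] {Q : ∀ (K : Type) [Field K] [Algebra Ω K], Prop} {K : Type}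
  [Field K] [Algebra Ω K]

/-- from the data of the libraries -/
theorem isTwist_of {R M : Type} [Field R] [Field M] [Algebra Ω M] [Algebra R M]
    (h : Pool.Agent.Helper35.V7.Row3 Ω R M) : IsTwist Ω R M := by
  obtain ⟨n, a, b, x, y, z, w, h1, h2, h3, h4, h5, h6, h7, h8, h9, h10⟩ :=
    Pool.Agent.Helper73.V7.IsTwist.of_row3 h
  exact ⟨n, a, b, x, y, z, w, h1, h2, h3, h4, h5, h6, h7, h8, h9,
    fun N g v s hv hs => Ext.uniruled_of (h10 N g v s hv hs)⟩

theorem isBuilt_of_rows {x y w : K} {n : ℕ} (hK : adjoin Ω {x, y, w} = ⊤)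
    (h2 : ∀ m, n = 2 * m → IsBuilt Q (adjoin Ω {x, y, w ^ m}))
    (h : ∃ R : IntermediateField Ω K, FiniteDimensional R K ∧ IsGalois R K ∧
      (∀ g h : K ≃ₐ[R] K, g * h = h * g) ∧
      ∀ M : IntermediateField R K, Pool.Agent.Helper75.QC.Uniruled Ω M 2 ∨
        Pool.Agent.Helper35.V7.Row3 Ω R M ∨
        ∃ m, n = 2 * m ∧ M.restrictScalars Ω = adjoin Ω {x, y, w ^ m}) : IsBuilt Q K := by
  obtain ⟨R, h3, h4, h5, h6⟩ := h
  refine surface (by rw [← hK]; exact fg_adjoin_of_finite (by simp)) R h3 h4 h5 fun M _ => ?_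
  rcases h6 M with h | h | ⟨m, hm, hM⟩
  · exact Or.inr (Or.inl h)
  · exact Or.inr (Or.inr (Or.inl (isTwist_of h)))
  · have h7 := h2 m hm
    rw [← hM] at h7
    exact Or.inl h7

variable [IsAlgClosed Ω]

/-- **Pullbacks.** `K = Ω(x, y, w)`, `n = [K : Ω(x, y, w ^ n)]` is not zero in `Ω`, and
`F(x, y, w ^ n) = 0` for a polynomial `F ≠ 0` of degree at most `a + b + c` for some weights
`a, b, 2 * c` of its variables. -/
theorem power (n : ℕ) (hn : (n : Ω) ≠ 0) (a b c : ℕ) (F : MvPolynomial (Fin 3) Ω) (x y w : K)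
    (hK : adjoin Ω {x, y, w} = ⊤) (hd : Module.finrank (adjoin Ω {x, y, w ^ n}) K = n)
    (habc : 0 < a + b + c) (hF : F ≠ 0)
    (hdeg : ∀ m ∈ F.support, a * m 0 + b * m 1 + 2 * c * m 2 ≤ a + b + c)
    (h0 : aeval ![x, y, w ^ n] F = 0) : IsBuilt Q K := by
  obtain ⟨R, h1, h2, h3, h4⟩ :=
    Pool.Agent.Helper48.V9.power_rows hn a b c F x y w hK hd habc hF hdeg h0
  exact surface (by rw [← hK]; exact fg_adjoin_of_finite (by simp)) R h1 h2 h3
    fun M _ => Or.inr ((h4 M).imp id fun h => Or.inl (isTwist_of h))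

/-- **Elliptic surfaces.** `y ^ 2 + a₁ * x * y + a₃ * y = x ^ 3 + a₂ * x ^ 2 + a₄ * x + a₆`, where `aᵢ` is
a polynomial of degree at most `i / 2` in `w ^ n`, `K = Ω(x, y, w)`, and `n = [K : Ω(x, y, w ^ n)]` is
not zero in `Ω`. -/
theorem elliptic_power (n : ℕ) (hn : (n : Ω) ≠ 0) (a₁ a₂ a₃ a₄ a₆ : Polynomial Ω)
    (h₁ : 2 * a₁.natDegree ≤ 1) (h₂ : 2 * a₂.natDegree ≤ 2) (h₃ : 2 * a₃.natDegree ≤ 3)
    (h₄ : 2 * a₄.natDegree ≤ 4) (h₆ : 2 * a₆.natDegree ≤ 6) (x y w : K)
    (hK : adjoin Ω {x, y, w} = ⊤) (hd : Module.finrank (adjoin Ω {x, y, w ^ n}) K = n)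
    (h : y ^ 2 + Polynomial.aeval (w ^ n) a₁ * x * y + Polynomial.aeval (w ^ n) a₃ * y =
      x ^ 3 + Polynomial.aeval (w ^ n) a₂ * x ^ 2 + Polynomial.aeval (w ^ n) a₄ * x +
        Polynomial.aeval (w ^ n) a₆) : IsBuilt Q K := by
  obtain ⟨a, b, c, F, habc, hF, hdeg, h0⟩ :=
    Pool.Agent.Helper73.V7.elliptic_data n a₁ a₂ a₃ a₄ a₆ h₁ h₂ h₃ h₄ h₆ x y w h
  exact power n hn a b c F x y w hK hd habc hF hdeg h0

/-- **Double planes.** `y ^ 2 = G(x, w ^ n) * y + F(x, w ^ n)`, `K = Ω(x, y, w)`,
`n = [K : Ω(x, y, w ^ n)]`, and for the weights `a`, `1` of `x`, `w` the degrees of `G`, `F` are at most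
`S`, `2 * S`, `S = a + 1 + ⌊n / 2⌋`. If `n = 2 * m`, then `Ω(x, y, w ^ m)` is in the class; this is the
function field of a K3 surface, if its singularities are rational double points and the degree of
the surface is `2 * S`. -/
theorem double_power (n : ℕ) (hn : (n : Ω) ≠ 0) (a : ℕ) (F G : MvPolynomial (Fin 2) Ω)
    (x y w : K) (hK : adjoin Ω {x, y, w} = ⊤)
    (hd : Module.finrank (adjoin Ω {x, y, w ^ n}) K = n)
    (hF : ∀ m ∈ F.support, a * m 0 + n * m 1 ≤ 2 * (a + 1 + n / 2))
    (hG : ∀ m ∈ G.support, a * m 0 + n * m 1 ≤ a + 1 + n / 2)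
    (hy : y ^ 2 = aeval ![x, w ^ n] G * y + aeval ![x, w ^ n] F)
    (h2 : ∀ m, n = 2 * m → IsBuilt Q (adjoin Ω {x, y, w ^ m})) : IsBuilt Q K :=
  isBuilt_of_rows hK h2 (Pool.Agent.Helper48.V10.dbl_rows' hn a F G x y w hK hd hF hG hy)

/-- **Elliptic surfaces.** The degree of `aᵢ` is at most `i * (1 + ⌊n / 2⌋) / n`. If `n = 2 * m`, then
`Ω(x, y, w ^ m)`, the function field of a K3 surface or a uniruled surface, is in the class. -/
theorem elliptic_power_K3 (n : ℕ) (hn : (n : Ω) ≠ 0) (a₁ a₂ a₃ a₄ a₆ : Polynomial Ω)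
    (h₁ : n * a₁.natDegree ≤ 1 + n / 2) (h₂ : n * a₂.natDegree ≤ 2 * (1 + n / 2))
    (h₃ : n * a₃.natDegree ≤ 3 * (1 + n / 2)) (h₄ : n * a₄.natDegree ≤ 4 * (1 + n / 2))
    (h₆ : n * a₆.natDegree ≤ 6 * (1 + n / 2)) (x y w : K) (hK : adjoin Ω {x, y, w} = ⊤)
    (hd : Module.finrank (adjoin Ω {x, y, w ^ n}) K = n)
    (h : y ^ 2 + Polynomial.aeval (w ^ n) a₁ * x * y + Polynomial.aeval (w ^ n) a₃ * y =
      x ^ 3 + Polynomial.aeval (w ^ n) a₂ * x ^ 2 + Polynomial.aeval (w ^ n) a₄ * x +
        Polynomial.aeval (w ^ n) a₆)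
    (h2 : ∀ m, n = 2 * m → IsBuilt Q (adjoin Ω {x, y, w ^ m})) : IsBuilt Q K :=
  isBuilt_of_rows hK h2
    (Pool.Agent.Helper48.V10.ell_rows hn a₁ a₂ a₃ a₄ a₆ h₁ h₂ h₃ h₄ h₆ x y w hK hd h)

/-- the equation `w ^ n = f(x, y)` with the natural condition on the degree -/
theorem power_row {R M : Type} [Field R] [Field M] [Algebra Ω R] [Algebra Ω M] [Algebra R M]
    [IsScalarTower Ω R M] [FiniteDimensional R M] [IsGalois R M] (x y w : M)
    (hR : ∀ r : R, algebraMap R M r ∈ (adjoin Ω {x, y} : IntermediateField Ω M))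
    (hM : adjoin Ω {x, y, w} = ⊤)
    (h : Pool.Agent.Helper73.V7.IsPower Ω
      (Module.finrank (adjoin Ω {x, y} : IntermediateField Ω M) M) x y w) :
    Pool.Agent.Helper75.QC.Uniruled Ω M 2 ∨ IsTwist Ω R M := by
  have hwn : w ^ Module.finrank (adjoin Ω {x, y} : IntermediateField Ω M) M ∈
      (adjoin Ω {x, y} : IntermediateField Ω M) := by
    obtain ⟨a, b, d, f, -, -, -, h⟩ := h
    rw [h]
    exact Pool.Agent.Helper75.WC.mem_valr75 f x y _ (subset_adjoin _ _ (by simp))
      (subset_adjoin _ _ (by simp))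
  obtain ⟨hn0, hcast, hw0⟩ := Pool.Agent.Helper15.WC.cyc_dataM (R := R) x y w hR hM rfl hwn
  rcases Nat.lt_or_ge 1 (Module.finrank (adjoin Ω {x, y} : IntermediateField Ω M) M) with h1 | h1
  · have hrow := h.weighted h1
    obtain ⟨hsmall, hlarge⟩ := Pool.Agent.Helper15.WC.row_uniM x y w hM hcast hw0 hrow
    rcases Nat.lt_or_ge 2 (Module.finrank (adjoin Ω {x, y} : IntermediateField Ω M) M) with
      hn2 | hn2
    · obtain ⟨α, β, hαβ, hα, hβ, hαβ', huni⟩ := hlarge hn2
      refine Or.inr (isTwist_of (Pool.Agent.Helper35.V7.Row3.of_rowDataM ⟨_, α, β, x, y, w, hn0,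
        hcast, hαβ, hα, hβ, hαβ', hR, hM, rfl, hw0 (by omega), hwn,
        fun N _ _ g v s hv hs => huni N g v s ?_ ?_ hs⟩))
      · rintro rfl
        exact hv isAlgebraic_zero
      · rintro rfl
        exact hv (isAlgebraic_algebraMap (1 : g.fieldRange))
    · exact Or.inl (hsmall hn2)
  · left
    have hn1 : Module.finrank (adjoin Ω {x, y} : IntermediateField Ω M) M = 1 := by omega
    refine Pool.Agent.Helper35.TD.uniruled_surface (n := 1) x y w hM ?_
    rwa [hn1, pow_one] at hwn

end Examples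

section Hypersurfaces

variable {Ω : Type} [Field Ω] [IsAlgClosed Ω] [CharZero Ω]
  {Q : ∀ (K : Type) [Field K] [Algebra Ω K], Prop} {K : Type} [Field K] [Algebra Ω K]

/-- The double planes `w ^ 2 = f(x, y)`, where for the weights `a`, `b` of `x`, `y` the degree of `f`
is at most `2 * (a + b + 1)`, are in the class. For `a, b > 0` their smooth models are K3 surfaces,
abelian surfaces, or have geometric genus zero. -/
def HasDoublePlanes {Ω : Type} [Field Ω] (Q : ∀ (K : Type) [Field K] [Algebra Ω K], Prop)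
    (a b : ℕ) : Prop :=
  ∀ (K : Type) [Field K] [Algebra Ω K] (x y w : K) (f : MvPolynomial (Fin 2) Ω),
    (∀ m ∈ f.support, a * m 0 + b * m 1 ≤ 2 * (a + b + 1)) → adjoin Ω {x, y, w} = ⊤ →
    w ^ 2 = aeval ![x, y] f → Q K

theorem arith {k c j s : ℕ} (hj : j < k) (hjk : j.Coprime k) (h : k * c ≤ 2 * s + 2)
    (h2 : ¬ (k = 2 ∧ c = s + 1)) : j * (k * c) ≤ k * s ∨ (k - j) * (k * c) ≤ k * s := by
  obtain ⟨i, rfl⟩ : ∃ i, k = j + i := ⟨k - j, by omega⟩
  have e1 : j + i - j = i := by omega
  rw [e1]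
  have h3 : j * c ≤ s ∨ i * c ≤ s := by
    by_contra hcon
    push Not at hcon
    obtain ⟨h4, h5⟩ := hcon
    have h6 : j * c + i * c ≤ 2 * s + 2 := by rw [← add_mul]; exact h
    have h7 : j * c = s + 1 := by omega
    have h8 : i * c = s + 1 := by omega
    have hc : 0 < c := Nat.pos_of_ne_zero (by
      rintro rfl
      omega)
    have h9 : j = i := Nat.eq_of_mul_eq_mul_right hc (h7.trans h8.symm)
    subst h9
    have h10 : j ∣ 1 := by
      rw [← hjk]
      exact Nat.dvd_gcd dvd_rfl ⟨2, by ring⟩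
    have h11 := Nat.dvd_one.1 h10
    subst h11
    exact h2 ⟨rfl, by omega⟩
  rcases h3 with h3 | h3
  · left
    calc j * ((j + i) * c) = (j + i) * (j * c) := by ring
      _ ≤ (j + i) * s := Nat.mul_le_mul_left _ h3
  · right
    calc i * ((j + i) * c) = (j + i) * (i * c) := by ring
      _ ≤ (j + i) * s := Nat.mul_le_mul_left _ h3

/-- **Forms in two variables.** The affine varieties `F = 1` for a quasi-homogeneous polynomial `F` of
positive degree in at most two variables are in the class. -/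
theorem binary {d : ℕ} (hd : 0 < d) {n : ℕ} (hn : n ≤ 2) {F : MvPolynomial (Fin n) Ω}
    {p : Fin n → ℕ} (hF : F.IsWeightedHomogeneous p d) :
    Pool.Agent.Helper48.KC.Fibre (IsBuilt Q) F := by
  intro K _ _ X hX h1 _
  have h2 := Pool.Agent.Helper48.KC.trdeg_add_one_le X (F - 1)
    (Pool.Agent.Helper48.KC.sub_one_ne hF hd) (by rw [map_sub, map_one, h1, sub_self])
  have h3 : Algebra.trdeg Ω (⊤ : IntermediateField Ω K) = Algebra.trdeg Ω K := topEquiv.trdeg_eq
  rw [hX, h3, Cardinal.mk_fintype, Fintype.card_fin] at h2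
  obtain ⟨t, ht, ht'⟩ := Pool.Agent.Helper48.KC.exists_nat_of_le h2
  refine curve (by rw [← hX]; exact fg_adjoin_of_finite (Set.finite_range _)) ?_
  rw [ht]
  have h4 : t ≤ 1 := by omega
  exact_mod_cast h4

/-- **Forms in three variables.** The affine varieties `F = 1` for a quasi-homogeneous polynomial `F`
of degree `d ≤ 2 * (a + b + 1)` in three variables with the weights `a, b, 1` are in the class. They
are cyclic covers `w ^ n = f(x, y)` of the weighted plane. If `d = 2 * (a + b + 1)`, it is a hypothesis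
that the double planes (K3 surfaces) are in the class. -/
theorem ternary {a b d : ℕ} (ha : 0 < a) (_ : 0 < b) (hd : 0 < d) (hdab : d ≤ 2 * (a + b + 1))
    (h6 : d = 2 * (a + b + 1) → HasDoublePlanes (IsBuilt Q) a b) {F : MvPolynomial (Fin 3) Ω}
    (hF : F.IsWeightedHomogeneous ![a, b, 1] d) :
    Pool.Agent.Helper48.KC.Fibre (IsBuilt Q) F := by
  intro K _ _ X hX h1 htr
  have hfg : (⊤ : IntermediateField Ω K).FG := by
    rw [← hX]
    exact fg_adjoin_of_finite (Set.finite_range _)
  have h2 := Pool.Agent.Helper48.KC.trdeg_add_one_le X (F - 1)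
    (Pool.Agent.Helper48.KC.sub_one_ne hF hd) (by rw [map_sub, map_one, h1, sub_self])
  have h3 : Algebra.trdeg Ω (⊤ : IntermediateField Ω K) = Algebra.trdeg Ω K := topEquiv.trdeg_eq
  rw [hX, h3, Cardinal.mk_fintype, Fintype.card_fin] at h2
  rw [Cardinal.mk_fintype, Fintype.card_fin] at htr
  obtain ⟨t, ht, ht'⟩ := Pool.Agent.Helper48.KC.exists_nat_of_le h2
  have ht2 : t = 2 := by
    rw [ht] at htr
    have h4 : 3 ≤ t + 1 := by exact_mod_cast htr
    omega
  subst ht2
  obtain ⟨R, h4, h5, h7, h8⟩ := Pool.Agent.Helper48.KC.ternary_rows hd hF X hX h1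
    (by rw [ht]; exact_mod_cast le_refl 2)
  refine surface hfg R h4 h5 h7 fun M _ => ?_
  obtain ⟨n, k, g, x, y, w, hnd, hkn, hg, hR, hM, hk, hw⟩ := h8 M
  obtain ⟨c, rfl⟩ := hkn
  have hnd' := Nat.le_of_dvd hd hnd
  by_cases hex : k = 2 ∧ c = a + b + 1
  · obtain ⟨rfl, rfl⟩ := hex
    have hd' : d = 2 * (a + b + 1) := by omega
    exact Or.inl (h6 hd' M x y w g hg hM hw)
  have hG : IsGalois R M := (Pool.Agent.Helper75.WC.exists_restrict h7 M).1
  refine Or.inr ((power_row (R := R) x y w hR hM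
    ⟨a, b, k * c, g, by omega, fun j hj hjk => ?_, fun m hm => ?_, ?_⟩).imp id Or.inl)
  · rw [hk] at hj hjk ⊢
    exact arith hj hjk (by omega) hex
  · simpa using hg m hm
  · rw [hk, hw]

omit [CharZero Ω] [IsAlgClosed Ω] in
/-- **Joins.** The affine varieties `F₁(X) + F₂(Y) = 1` for quasi-homogeneous polynomials `F₁`, `F₂`,
if the varieties `F₁ = 1`, `F₂ = 1` are in the class. -/
theorem join [IsAlgClosed Ω] {ι₁ ι₂ : Type} [Fintype ι₁] [Fintype ι₂] {F₁ : MvPolynomial ι₁ Ω}
    {F₂ : MvPolynomial ι₂ Ω} {p₁ : ι₁ → ℕ} {p₂ : ι₂ → ℕ} {d₁ d₂ : ℕ}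
    (h₁ : F₁.IsWeightedHomogeneous p₁ d₁) (h₂ : F₂.IsWeightedHomogeneous p₂ d₂) (hd₁ : 0 < d₁)
    (hd₂ : 0 < d₂) (hF₁ : F₁ ≠ 0) (hF₂ : F₂ ≠ 0)
    (H₁ : Pool.Agent.Helper48.KC.Fibre (IsBuilt Q) F₁)
    (H₂ : Pool.Agent.Helper48.KC.Fibre (IsBuilt Q) F₂) :
    Pool.Agent.Helper48.KC.Fibre (IsBuilt Q) (rename Sum.inl F₁ + rename Sum.inr F₂) :=
  Pool.Agent.Helper48.KC.Fibre.add closed h₁ h₂ hd₁ hd₂ hF₁ hF₂ H₁ H₂

omit [CharZero Ω] in
/-- **Hypersurfaces.** The function fields `K` of the hypersurfaces `F₁ + ⋯ + Fₘ = 0` in weighted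
projective spaces, where the `Fⱼ` are quasi-homogeneous polynomials of the same degree in disjoint
sets of variables, such that the affine varieties `Fⱼ = 1` are in the class. The last set of variables
contains one of weight one, and the coordinates are chosen such that it is equal to `1`. -/
theorem hypersurface {m : ℕ} (n : Fin (m + 2) → ℕ) (p : ∀ j, Fin (n j) → ℕ) {d : ℕ} (hd : 0 < d)
    (F : ∀ j, MvPolynomial (Fin (n j)) Ω) (hF0 : ∀ j, F j ≠ 0)
    (hF : ∀ j, (F j).IsWeightedHomogeneous (p j) d)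
    (H : ∀ j, Pool.Agent.Helper48.KC.Fibre (IsBuilt Q) (F j)) (X : ∀ j, Fin (n j) → K)
    (hX : adjoin Ω {z | ∃ j i, X j i = z} = ⊤) (h0 : ∑ j, aeval (X j) (F j) = 0)
    (i : Fin (n (Fin.last (m + 1)))) (hi : p (Fin.last (m + 1)) i = 1)
    (h1 : X (Fin.last (m + 1)) i = 1)
    (htr : ((∑ j, n j : ℕ) : Cardinal) ≤ Algebra.trdeg Ω K + 2) : IsBuilt Q K :=
  Pool.Agent.Helper48.KC.hyper closed n p hd F hF0 hF H K X hX h0 i hi h1 htr

/-- **Threefolds.** The function field `K` of a threefold `F(x, y, z) + G(u, v) = 0` of degree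
`d ≤ 2 * (a + b + 1)` in the weighted space `P(a, b, 1, e, 1)`. They are Calabi-Yau threefolds for
`d = a + b + e + 2`: of degree five in `P(1, 1, 1, 1, 1)`, six in `P(2, 1, 1, 1, 1)`, eight in
`P(3, 2, 1, 1, 1)`, eight in `P(2, 2, 1, 2, 1)`, ... If `d = 2 * (a + b + 1)`, for example for the
threefolds of general type of degree six in `P(1, 1, 1, 1, 1)`, it is a hypothesis that the
double planes (K3 surfaces) are in the class. -/
theorem threefold {a b e d : ℕ} (ha : 0 < a) (hb : 0 < b) (hd : 0 < d) (hdab : d ≤ 2 * (a + b + 1))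
    (h6 : d = 2 * (a + b + 1) → HasDoublePlanes (IsBuilt Q) a b) {F : MvPolynomial (Fin 3) Ω}
    (hF : F.IsWeightedHomogeneous ![a, b, 1] d) (hF0 : F ≠ 0) {G : MvPolynomial (Fin 2) Ω}
    (hG : G.IsWeightedHomogeneous ![e, 1] d) (hG0 : G ≠ 0) (x y z u : K)
    (hK : adjoin Ω {x, y, z, u} = ⊤) (h : aeval ![x, y, z] F + aeval ![u, 1] G = 0)
    (htr : 3 ≤ Algebra.trdeg Ω K) : IsBuilt Q K := by
  refine Pool.Agent.Helper48.KC.projective' closed hd hF hG hF0 hG0
    (ternary ha hb hd hdab h6 hF) (binary hd le_rfl hG) K ![x, y, z] ![u, 1] ?_ h 1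
    rfl rfl ?_
  · rw [eq_top_iff, ← hK, adjoin_le_iff]
    rintro s (rfl | rfl | rfl | rfl)
    · exact subset_adjoin _ _ (Or.inl ⟨0, rfl⟩)
    · exact subset_adjoin _ _ (Or.inl ⟨1, rfl⟩)
    · exact subset_adjoin _ _ (Or.inl ⟨2, rfl⟩)
    · exact subset_adjoin _ _ (Or.inr ⟨0, rfl⟩)
  · rw [Cardinal.mk_fintype, Cardinal.mk_fintype, Fintype.card_fin, Fintype.card_fin]
    have h9 : ((3 : ℕ) : Cardinal) + ((2 : ℕ) : Cardinal) = 3 + 2 := by norm_num
    rw [h9]
    gcongr

/-- **Fourfolds.** The function field `K` of a fourfold `F(x, y, z) + G(u, v, w) = 0` of degree `d` in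
the weighted space `P(a, b, 1, a', b', 1)`: for example the Calabi-Yau fourfolds of degree six in
`P(1, 1, 1, 1, 1, 1)`. -/
theorem fourfold {a b a' b' d : ℕ} (ha : 0 < a) (hb : 0 < b) (ha' : 0 < a') (hb' : 0 < b')
    (hd : 0 < d)
    (hdab : d ≤ 2 * (a + b + 1)) (hdab' : d ≤ 2 * (a' + b' + 1))
    (h6 : d = 2 * (a + b + 1) → HasDoublePlanes (IsBuilt Q) a b)
    (h6' : d = 2 * (a' + b' + 1) → HasDoublePlanes (IsBuilt Q) a' b')
    {F : MvPolynomial (Fin 3) Ω} (hF : F.IsWeightedHomogeneous ![a, b, 1] d) (hF0 : F ≠ 0)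
    {G : MvPolynomial (Fin 3) Ω} (hG : G.IsWeightedHomogeneous ![a', b', 1] d) (hG0 : G ≠ 0)
    (x y z u v : K) (hK : adjoin Ω {x, y, z, u, v} = ⊤)
    (h : aeval ![x, y, z] F + aeval ![u, v, 1] G = 0) (htr : 4 ≤ Algebra.trdeg Ω K) :
    IsBuilt Q K := by
  refine Pool.Agent.Helper48.KC.projective' closed hd hF hG hF0 hG0
    (ternary ha hb hd hdab h6 hF) (ternary ha' hb' hd hdab' h6' hG) K ![x, y, z]
    ![u, v, 1] ?_ h 2 rfl rfl ?_
  · rw [eq_top_iff, ← hK, adjoin_le_iff]
    rintro s (rfl | rfl | rfl | rfl | rfl)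
    · exact subset_adjoin _ _ (Or.inl ⟨0, rfl⟩)
    · exact subset_adjoin _ _ (Or.inl ⟨1, rfl⟩)
    · exact subset_adjoin _ _ (Or.inl ⟨2, rfl⟩)
    · exact subset_adjoin _ _ (Or.inr ⟨0, rfl⟩)
    · exact subset_adjoin _ _ (Or.inr ⟨1, rfl⟩)
  · rw [Cardinal.mk_fintype, Fintype.card_fin]
    have h9 : ((3 : ℕ) : Cardinal) + ((3 : ℕ) : Cardinal) = 4 + 2 := by norm_num
    rw [h9]
    gcongr

omit [CharZero Ω] [IsAlgClosed Ω] in
/-- **Curves.** The curves `w ^ n = f(x)`, for all `n` and `f`. -/
theorem line {n : ℕ} (hn : 0 < n) (f : MvPolynomial (Fin 1) Ω) :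
    Pool.Agent.Helper48.KC.Root (IsBuilt Q) n f := by
  intro K _ _ X w hX hw _
  refine curve (by rw [← hX]; exact fg_adjoin_of_finite ((Set.finite_range _).insert _)) ?_
  have h1 := Pool.Agent.Helper48.KC.trdeg_root_le hn X w hw
  rw [hX, Cardinal.mk_fintype, Fintype.card_fin] at h1
  have h2 : Algebra.trdeg Ω (⊤ : IntermediateField Ω K) = Algebra.trdeg Ω K := topEquiv.trdeg_eq
  rw [h2] at h1
  exact_mod_cast h1

/-- **Surfaces.** The surfaces `w ^ n = f(x, y)` for all `n`, where `f` has degree at most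
`2 * (a + b)` for the weights `a`, `b` (degree at most four for `a = b = 1`). -/
theorem plane {a b n : ℕ} (hab : 0 < a + b) (hn : 0 < n) {f : MvPolynomial (Fin 2) Ω}
    (hf : ∀ m ∈ f.support, a * m 0 + b * m 1 ≤ 2 * (a + b)) :
    Pool.Agent.Helper48.KC.Root (IsBuilt Q) n f := by
  intro K _ _ X w hX hw htr
  have h1 := Pool.Agent.Helper48.KC.trdeg_root_le hn X w hw
  rw [hX, Cardinal.mk_fintype, Fintype.card_fin] at h1
  have h2 : Algebra.trdeg Ω (⊤ : IntermediateField Ω K) = Algebra.trdeg Ω K := topEquiv.trdeg_eq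
  rw [h2] at h1
  rw [Cardinal.mk_fintype, Fintype.card_fin] at htr
  have hX' : X = ![X 0, X 1] := by
    funext i
    fin_cases i <;> rfl
  have hgen : adjoin Ω {X 0, X 1, w} = ⊤ := by
    rw [eq_top_iff, ← hX, adjoin_le_iff]
    rintro s (rfl | ⟨i, rfl⟩)
    · exact subset_adjoin _ _ (by simp)
    · fin_cases i
      · exact subset_adjoin _ _ (by simp)
      · exact subset_adjoin _ _ (by simp)
  obtain ⟨R, h3, h4, h5, h6⟩ := Pool.Agent.Helper48.KC.root_rows hn (f := f) (X 0) (X 1) w hgen
    (by rw [← hX']; exact hw) (by exact_mod_cast htr)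
  refine surface (by rw [← hX]; exact fg_adjoin_of_finite ((Set.finite_range _).insert _))
    R h3 h4 h5 fun M _ => ?_
  obtain ⟨n', k, c, g, x, y, w, h7, h8, h9, h10, h11, h12, h13⟩ := h6 M
  have hc0 : 0 < c := Nat.pos_of_ne_zero (by
    rintro rfl
    rw [mul_zero] at h7
    omega)
  have h14 := Pool.Agent.Helper48.KC.support_le hc0 h9
    ((Pool.Agent.Helper48.KC.natDegree_scale_le' a b hf).trans (Nat.le_mul_of_pos_right _ hc0))
  have hG : IsGalois R M := (Pool.Agent.Helper75.WC.exists_restrict h5 M).1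
  refine Or.inr ((power_row (R := R) x y w h10 h11
    ⟨a, b, 2 * (a + b), g, hab, fun j hj _ => ?_, fun m hm => ?_, ?_⟩).imp id Or.inl)
  · rw [h12] at hj ⊢
    obtain ⟨i, rfl⟩ : ∃ i, k = j + i := ⟨k - j, by omega⟩
    have e1 : j + i - j = i := by omega
    rw [e1]
    rcases le_total j i with h | h
    · left
      nlinarith [Nat.mul_le_mul_right (a + b) h]
    · right
      nlinarith [Nat.mul_le_mul_right (a + b) h]
  · simpa using h14 m hm
  · rw [h12, h13]

omit [CharZero Ω] [IsAlgClosed Ω] in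
/-- **Double planes.** The surfaces `w ^ 2 = f(x, y)`, where `f` has degree at most
`2 * (a + b + 1)` for the weights `a`, `b` (degree at most six for `a = b = 1`). -/
theorem double_plane {a b : ℕ} (h2 : HasDoublePlanes (IsBuilt Q) a b)
    {f : MvPolynomial (Fin 2) Ω} (hf : ∀ m ∈ f.support, a * m 0 + b * m 1 ≤ 2 * (a + b + 1)) :
    Pool.Agent.Helper48.KC.Root (IsBuilt Q) 2 f := by
  intro K _ _ X w hX hw _
  have hX' : X = ![X 0, X 1] := by
    funext i
    fin_cases i <;> rfl
  refine h2 K (X 0) (X 1) w f hf ?_ (by rw [← hX']; exact hw)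
  rw [eq_top_iff, ← hX, adjoin_le_iff]
  rintro s (rfl | ⟨i, rfl⟩)
  · exact subset_adjoin _ _ (by simp)
  · fin_cases i
    · exact subset_adjoin _ _ (by simp)
    · exact subset_adjoin _ _ (by simp)

omit [CharZero Ω] in
/-- **Products of branch divisors.** The cyclic covers `z ^ n = f₁ * ⋯ * fₘ`, where the `fⱼ` are
polynomials in disjoint sets of variables, such that the cyclic covers `w ^ n = fⱼ` are in the class.
For example `z ^ n = ∏ fⱼ(xⱼ, yⱼ)`, `deg fⱼ ≤ 4`, for all `n` (`plane`), varieties of general type for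
large `n`, and the Calabi-Yau varieties `z ^ 2 = ∏ fⱼ(xⱼ, yⱼ)`, `deg fⱼ ≤ 6`, and
`z ^ 2 = g(x) * ∏ fⱼ(xⱼ, yⱼ)`, `deg g ≤ 4`, of all dimensions, with the hypothesis on K3 surfaces
(`double_plane`, `line`). -/
theorem product {n : ℕ} (hn : 0 < n) {m : ℕ} (r : Fin (m + 1) → ℕ)
    (f : ∀ j, MvPolynomial (Fin (r j)) Ω) (hf : ∀ j, f j ≠ 0)
    (H : ∀ j, Pool.Agent.Helper48.KC.Root (IsBuilt Q) n (f j)) :
    Pool.Agent.Helper48.KC.Root (IsBuilt Q) n (∏ j, rename (Sigma.mk j) (f j) :
      MvPolynomial (Σ j : Fin (m + 1), Fin (r j)) Ω) :=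
  Pool.Agent.Helper48.KC.Root.prod closed hn m r f hf H

end Hypersurfaces

section Fixed

/-- **Fixed fields** (helper28). Let the finite group `A` act on `K`, let `H`, `Γ i` be subgroups with
the sums of elements `e_H`, `e_{Γ i}`, and let `e_H = ∑ Y i * e_{Γ i} * X i` with `X i`, `Y i` in the
rational group ring of `A`. (Such elements exist if and only if the permutation representation
`ℚ[A / H]` is a direct factor of a sum of copies of the `ℚ[A / Γ i]`; for example if `H = 1`, `A` is a
dihedral group, `S₄` or `(ℤ / p) ^ 2`, and the `Γ i` are its subgroups of prime order.) If `γ` acts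
trivially on `H r (E i)` for the fixed fields `E i` of the `Γ i`, then it acts trivially on `H r F` for
the fixed field `F` of `H`. So the fields `F` can be added to `Q`, if this is true for the `E i` and
all `r`. -/
theorem fixed {Ω L G : Type} [Field Ω] [Field L] [CharZero L] [Group G] {T : MotivicCoh Ω L G}
    (hT : T.IsMotivic) (γ : G) (r : ℕ) {A : Type} [Group A] [Finite A] {F K : Type} [Field F]
    [Algebra Ω F] [Field K] [Algebra Ω K] (ρ : A →* (K ≃ₐ[Ω] K)) (H : Subgroup A) (φ : F →ₐ[Ω] K)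
    (hφ : ∀ z : K, z ∈ Set.range φ ↔ ∀ g ∈ H, ρ g z = z) {m : ℕ} (Γ : Fin m → Subgroup A)
    (X Y : Fin m → MonoidAlgebra ℚ A)
    (hΓ : Pool.Agent.Helper48.KC.CD.eG H =
      ∑ i, Y i * Pool.Agent.Helper48.KC.CD.eG (Γ i) * X i)
    (E : Fin m → Type) [∀ i, Field (E i)] [∀ i, Algebra Ω (E i)] (ψ : ∀ i, E i →ₐ[Ω] K)
    (hψ : ∀ i z, z ∈ Set.range (ψ i) ↔ ∀ g ∈ Γ i, ρ g z = z)
    (h : ∀ i, T.act r ⟨E i⟩ γ = 𝟙 (T.H r ⟨E i⟩)) : T.act r ⟨F⟩ γ = 𝟙 (T.H r ⟨F⟩) := by
  refine ModuleCat.hom_ext (LinearMap.ext fun t => ?_)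
  exact Pool.Agent.Helper48.KC.CD.act_dec (T.toTheory hT).toCohomology r
    (fun K _ _ => (T.toTheory hT).act r K γ) (fun g t => (T.toTheory hT).map_act r g γ t) ρ H φ hφ
    Γ X Y hΓ E ψ hψ (fun i t => congrArg (fun f => f.hom t) (h i)) t

end Fixed

/-- Every element of the motivic Galois group which is trivial on the abelian motives (and on the
given motives `Q`) is trivial on the motives of all varieties built from uniruled surfaces by
twists, products, rational dominations and abelian covers. -/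
theorem result {Ω L G : Type} [Field Ω] [IsAlgClosed Ω] [CharZero Ω] [Field L] [IsAlgClosed L]
    [CharZero L] [Group G] (T : MotivicCoh Ω L G) (hT : T.IsMotivic) (hT' : Kunneth T) (γ : G)
    (hγ : IsTrivial T γ) (Q : ∀ (K : Type) [Field K] [Algebra Ω K], Prop)
    (hQ : ∀ (K : Type) [Field K] [Algebra Ω K], Q K → ∀ i, T.act i ⟨K⟩ γ = 𝟙 (T.H i ⟨K⟩))
    (K : Ext Ω) (hK : IsBuilt Q K) (i : ℕ) : T.act i K γ = 𝟙 (T.H i K) :=
  act_of_isBuilt hT hT' hγ hQ hK i

end Pool.Agent.Results.MP_b8862a_ag.CyclicCoverMotives
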