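import Pool.Agent.Helper35.EQ.Main

/-!
# The generalized Tate conjecture for the powers of surfaces with a genus one fibration

Authors: helper35 and helper98; library on zero-cycles (`Pool.Agent.Helper40.CX`): helper26, helper83,
helper51, helper94, helper70, helper71, helper17, helper9, helper15 and helper21 (in characteristic
zero), helper40 (in characteristic different from `2` and `3`; extension of the constants); cyclic base
changes: helper98 (the idea), helper83 (`Helper83/CHI`), helper98 (`Helper98/CHI`), helper40
(`Helper40/CX/CHI`), helper9 (`Helper9/CHI`) and helper35 (`Helper35/CHI`, `Helper35/EQ`).

Let `Ω` be an algebraically closed field of characteristic different from `2` and `3`, and `S` a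
smooth projective surface over `Ω` with a genus one fibration over the projective line, and
`p_g(S) = s` (more precisely `χ(O_S) = s + 1`). Let `T(S)` be the transcendental part of `H²(S)`, the
orthogonal complement of the classes of curves.

(0) The conjecture of Voisin is a theorem for `S` (`HasVoisin`, without any axiom; the proof is in
`Helper40/CX`): the alternating sums of the products of `n > s` zero-cycles of degree zero are torsion
in the Chow group of `S ^ n`, and this over all algebraically closed fields. No condition on the index
of the fibration, on the multiple fibres or on the singularities of projective models of `S` is
imposed.

Let now `S` be the cyclic base change of degree `m` of such a surface `R`, with `χ(O_R) = s`: if `R` is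
fibred over the line with the coordinate `u`, then the function field of `S` is the field of `R` with
`w`, `w ^ m = u`, adjoined, where `m` is prime to the characteristic, or `w ^ p - w = u`, where `m = p` is
the characteristic (for example `y² = x³ + A(w ^ m) x + B(w ^ m)`, where `A` and `B` have degrees at most
`4 s` and `6 s`; `p_g(S) = m s - 1` is arbitrarily large, even for `s = 1`). Let `g` be the automorphism
`w ↦ ζ w` or `w ↦ w + 1` of order `m` of `S` over `R`. Then the conjecture of Voisin is also a theorem
for the parts of the Chow groups which belong to a character `c ≠ 1` of `g`, with the number `s`
(`HasVoisinChi`, again without any axiom; `s` is the dimension of `H⁰(Ω²_S)_c` if `m` is prime to the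
characteristic): a cycle on `S ^ n` for `n > s` which is `m ^ (n - 1)` times the projection of the
alternating sum of `n` zero-cycles to the sum of the parts of type `(c, …, c)`, `c ≠ 1`, is torsion.

(1) By the argument of Bloch and Srinivas (`BlochSrinivas`, an axiom, true for all varieties) the
alternating sums of `n > s` elements of `T(S)`, classes on `S ^ n`, are supported on divisors. By the
same argument (`BlochSrinivasChi`; the cycle of `HasVoisinChi`, for the generic point of `S ^ n`, is the
value of a correspondence which acts on the products of `n` eigenvectors of `g` with the same eigenvalue
`c` as `m ^ (n - 1) (1 - c)` times the alternating sum) this is true for `n > s` elements of the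
eigenspace `T(S)_c`, `c ≠ 1`, of a cyclic base change. This is also true for the images of the spaces
`T(S)`, `T(S)_c` under correspondences.

(2) The generalized Tate conjecture for subspaces of tensor powers, as follows.

Let `S_0` be a smooth projective variety with function field `K0`, for which `V = T(S_0)` is a sum of
parts `A i`, images of spaces `T(S i)` or `T(S i)_c` with `S i` as above under correspondences: `S_0`
can be a surface with a genus one fibration over the projective line, a cyclic base change `S` of such
a surface `R` (the parts are `T(R)`, with the number `s - 1`, and `T(S)_c` for the `m - 1` characters
`c ≠ 1`, with the number `s`), a product of several surfaces of this kind, or a surface of general type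
which is composed of them, such as the covers of the projective plane with the group `(ℤ / 2) ^ 2` which
are branched along three cubics (`p_g = 3`, the parts are `T` of three K3 surfaces, double planes).

Let `φ` be an endomorphism of `V` given by a correspondence, for example the Frobenius of a model of
`S_0` over a finite field. We apply polynomials in `φ` to the factors of an alternating sum of
generalised eigenvectors with different eigenvalues. This shows that a product of more than `s i`
generalised eigenvectors in `A i` with different eigenvalues is supported on a divisor.

Let `S_0` be defined over the field with `q` elements, and ordinary: `s i` of the eigenvalues of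
Frobenius on `T(S i)` are `p`-adic units, and `s i` are `q ^ 2` times units; the others are `q` times
units. Assume that the conjugates of the eigenvalues on the `T(S i)` are independent: any `s i` (or
fewer) eigenvalues on `T(S i)`, for all `i`, no two of them with the product `q ^ 2`, are conjugate to
`p`-adic units by one automorphism (`IsOrdinary`). This is true if the polynomial of Frobenius on
`T(S i)` is irreducible, and its Galois group is the group `W(C_g)` of all permutations of the `2 g`
eigenvalues which respect the pairs with the product `q ^ 2`, and if these groups are independent for
different `i`; it is also true for one ordinary K3 surface, without a condition. For the parts `T(S)_c`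
of a cyclic base change, `c ≠ 1`: there are `s` unit eigenvalues on each of them, and `s` eigenvalues
which are `q ^ 2` times units; the spaces `T(S)_c` and `T(S)_{1 / c}` are dual (up to a twist), and the
condition is true if for the pairs `c`, `1 / c` with `c ≠ -1` the polynomials on `T(S)_c` have the group
of all permutations over the field of `m`-th roots of unity, and all these groups are independent; the
whole space `T(S)` is one part with the number `p_g(S) = m s - 1` in the sense of the first paragraph,
but for it `IsOrdinary` is false if `m s > s + 1`. Let `P` be a subspace
of the `n`-th tensor power of `V` which is stable under Frobenius, such that `P(1)` is effective: the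
eigenvalues on `P`, divided by `q`, are algebraic integers. Then `P` is supported on a divisor. Indeed,
consider a product of `n` generalised eigenvectors. If the product of two of the eigenvalues is
`q ^ 2`, it is a Tate class, hence algebraic (`IsTate`; the eigenvalues are simple, and the Tate
classes in `T(S i) ⊗ T(S i)` are combinations of the graphs of the powers of Frobenius; for K3 surfaces
this is a theorem of Zarhin). Otherwise, if at most `s i` different eigenvalues on `T(S i)` occur for
all `i`, they are conjugate to units, and the eigenvalue of the product is not divisible by `q`.

If there is one part, and `s 1 = 1`, the same argument gives more: if the eigenvalues on `P`, divided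
by `q ^ ν`, are algebraic integers, and `2 ν ≤ n`, then `P` is supported in codimension `ν`, because
there are `ν` disjoint pairs of factors with different eigenvalues.

Let `X` be a product of powers `S ^ n` and Hilbert schemes of surfaces `S` with `H¹(S) = 0`, for which
`T(S)` is a sum of images of spaces `T(S i)`, `T(S i)_c` under correspondences. The cohomology of `X`
is a direct summand of a sum of tensor products of these spaces with Tate twists. So this is the generalized
Tate conjecture for `H ^ i(X)`, all `i`, and coniveau one, and for K3 surfaces for the coniveau at most
`i / 4`.

Over a number field let the image of the Galois group in the product of the groups `PO(T(S i))` be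
Zariski dense, and let the `S i` be ordinary at one place. The irreducible representations of the
product of the groups `O(T(S i))` in the tensor powers of `V` which are not contained in the span of
the products with alternating sums of `s i + 1` factors in `T(S i)` and of the products with the
classes of the transcendental parts of the diagonals of `S i × S i` belong to partitions with at most
`s i` rows, and products of unit eigenvalues of Frobenius occur in them. So the generalized Tate
conjecture for coniveau one follows in the same way from the first part of the theorem. For the parts
`T(S)_c` of a cyclic base change, with the groups `GL(T(S)_c)`, one for each pair `c`, `1 / c` with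
`c ≠ -1`: the representations with at most `s` positive and at most `s` negative rows remain, and
products of unit eigenvalues occur in them, because `dim T(S)_c ≥ 2 s`.
-/

set_option autoImplicit false

namespace Pool.Agent.Helper48.Keep.EP3

open TensorProduct CategoryTheory
open Pool.Agent.Helper15.GD Pool.Agent.Helper35.EQ

/-- The alternating sums of `n > s` zero-cycles of degree zero on a variety are torsion, if its function
field `K` is contained in the function field of a surface with a genus one fibration over the
projective line and the Euler characteristic `s + 1`. The parts of the alternating sums of `n > s`
zero-cycles for the nontrivial characters are torsion, if `K` is contained in the function field of a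
cyclic base change of such a surface with the Euler characteristic `s`.

Let `H(K0)` be finite-dimensional, and let `A i` be the image of `H(K)`, or of an eigenspace with the
eigenvalue `c ≠ 1`, under a correspondence, for such a field `K`, `s = s i`. The alternating sums of the
products of `n > s i` elements of `A i` are
supported on divisors. Let `H(K0)` be the sum of the `A i`, `φ` an endomorphism of `H(K0)` given by a
correspondence which maps `A i` into itself and is ordinary, and let the products of generalised
eigenvectors for `a` and `q ^ 2 / a` be supported in codimension two. Let `P` be a subspace of the
`n`-th tensor power which is stable under `g = φ ⊗ ... ⊗ φ`, such that the eigenvalues of `g` on `P`,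
divided by `q ^ ν`, are integral. Then `P` is supported in codimension `ν` if `ν = 1`, or if there is
only one part, with `s = 1`, and `2 * ν ≤ n`. -/
theorem result {Ω : Type} [Field Ω] [IsAlgClosed Ω] [CX.Good Ω] :
    (∀ (s n : ℕ) (K : Type) [Field K] [Algebra Ω K], s < n →
      (IsGenusOne s Ω K → HasVoisin n Ω K) ∧
        ∀ (m : ℕ) (g : K ≃ₐ[Ω] K), IsCyclic s m Ω K g → HasVoisinChi n m Ω K g) ∧
    ∀ (L : Type) [Field L] [IsAlgClosed L] (T : PowCoh Ω L), T.IsTheory → ∀ K0 : Ext Ω,
      FiniteDimensional L (T.H K0) → ∀ (r : ℕ) (s : Fin r → ℕ) (A : Fin r → Submodule L (T.H K0)),
        (∀ i, T.IsPart K0 (s i) (A i)) → ∀ n : ℕ,
          (∀ i, s i < n → ∀ z : Fin n → T.H K0, (∀ j, z j ∈ A i) → alt z ∈ T.sup K0 n 1) ∧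
          (⨆ i, A i = ⊤ → ∀ φ ∈ T.corr K0 K0, (∀ i, IsStable φ (A i)) →
            ∀ q : L, IsOrdinary φ q s A → T.IsTate φ q →
              ∀ (P : Submodule L (tpow (T.H K0) n)) (ν : ℕ), IsStable (tmap fun _ => φ) P →
                (∀ c : L, IsEigenvalue (tmap fun _ => φ) P c → IsIntegral ℤ (c / q ^ ν)) →
                  (ν = 1 ∨ r = 1 ∧ (∀ i, s i = 1) ∧ 2 * ν ≤ n) → P ≤ T.sup K0 n ν) :=
  ⟨fun _ _ _ _ _ hn => ⟨fun h => hasVoisin hn h, fun _ _ h => hasVoisinChi hn h⟩,
    fun _ _ _ T hT K0 hK0 _ s A hA n => main T hT K0 hK0 s A hA n⟩

end Pool.Agent.Helper48.Keep.EP3
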