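import Pool.Agent.Helper15.MU.Cover
import Pool.Agent.Helper15.V7.Lst
import Pool.Agent.Helper48.TT.ListN
import Pool.Agent.Helper73.V7.Ell

/-!
# The motivated Mumford-Tate conjecture for abelian covers of the plane and elliptic surfaces

Let `X` be a smooth projective surface over a finitely generated field `k` of characteristic zero,
`Ω` an algebraic closure of `k`, and `H` the `ℓ`-adic realisation, with coefficients in an
algebraically closed field `L`, of the motive `h^2(X) / N^1`. Let `G` be the motivic Galois group of
the category of motives over `Ω` (André's motives), `P ≤ G` the Mumford-Tate group, `J ≤ G` the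
identity component of the Zariski closure of the Galois group, and `𝓜` the set of the Hodge-Tate
cocharacters of `J` (they are conjugates of the Hodge cocharacters). The conjecture says that `P`,
`G` and `J` have the same image in the linear group of `H`. Here the groups of points in `L` are
used, and the second equality is stated with invariants: the images of the reductive groups `J ≤ G`
are equal if they have the same invariant multilinear forms on `H ⊕ H^∨`.

Let `R ⊆ K` be a finite abelian extension of function fields of surfaces over `Ω`. Let every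
intermediate field `M` with a cyclic Galois group `Gal(M / R)` be `Ω(x, y, w)`, where

* either `R ⊆ Ω(x, y)`, `n = [M : Ω(x, y)]`, and `w ^ n = f₁ ^ e₁ * ⋯ * fᵣ ^ eᵣ` is branched along a
  plane curve of degree at most five; if `n = 9` or `n > 10`, then there are at most three
  components, and the degree is at most four or at most one of them is a line. No condition on the
  singularities is imposed;
* or `R ⊆ B = Ω(x, y, w ^ n)`, `n = [M : B]`, and `F(x, y, w ^ n) = 0` for a polynomial `F ≠ 0`, whose
  degree for some weights `a, b, 2 * c` of the variables is at most `a + b + c` (`n` is arbitrary).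
  For example `M` is the function field of any elliptic surface `y ^ 2 = x ^ 3 + A(w ^ n) * x +
  B(w ^ n)` with `deg A ≤ 2`, `deg B ≤ 3` (`(a, b, c) = (2, 3, 1)`), or of
  `y ^ 2 + a₁ * x * y + a₃ * y = x ^ 3 + a₂ * x ^ 2 + a₄ * x + a₆`, where `aᵢ` is a polynomial in
  `w ^ n` of degree at most `i / 2`. Its geometric genus is `⌈n / 2⌉ - 1`, and there are five moduli.

Let `X` be any surface which is dominated by a surface with the function field `K`. Then

1. `P` and `G` have the same image in the linear group of `H`;
2. the endomorphisms of `H` and the bilinear forms on `H` which span lines stable under a subgroup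
   of finite index of `J` span lines stable under `G`, and `H` is semisimple;
3. let `S ≤ H` be stable under `G`. If every simple `B ≤ S` of dimension at least two has a
   Hodge-Tate cocharacter with only two weights on `B`, whose multiplicities are coprime, then all
   multilinear forms on `S ⊕ S^∨` which are fixed by a subgroup of finite index of `J` are fixed by
   `G`.

The condition in 3 holds for `S = H` if the eigenspaces for the characters of `Gal(K / R)` have
`h^(2,0) + h^(0,2) ≤ 1`: a cocharacter acts on `B` by scalars or as in 3, and if all of them act by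
scalars, so does `P`, and `dim B = 1` by 1. So the conjecture holds for `H^2` of all abelian covers
of the plane branched along any curve of degree at most four (four lines in general position give
products of curves), for those of exponent three or four branched along any curve of degree five,
and for the elliptic surfaces above: for every character of the group of order `n` which acts on `w`
the eigenspace has `h^(2,0) + h^(0,2) ≤ 1` (the holomorphic forms are `w ^ i * dw * dx / y`,
`0 ≤ i ≤ ⌈n / 2⌉ - 2`), and dimension at most six. It also holds if the eigenspaces are simple and, for one of the conjugates of the character,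
the numbers `h^(2,0) + h^(0,2)` and `h^(1,1)` are coprime, for example for the quintic surfaces
`w ^ 5 = f₅` with simple eigenspaces, where they are `3, 10` and `1, 12`. In general 3 is the
conjecture for the largest part of `H` which satisfies the condition.

The proof: up to characters `H` is embedded in the first cohomology of finitely many varieties (the
eigenspace `E` of `H 2 M`, tensored with a line `E'` of `H 1` of a Fermat curve, comes from the
threefold `v ^ α (1 - v) ^ β = s ^ n w ^ n`, which is uniruled; in the second case `w ^ n =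
v (1 - v) / s ^ n` makes it a family of surfaces `F(x, y, v (1 - v) / s ^ n) = 0` of degree at most
`a + b + c` for the weights `a, b, c` of `x, y, v`, for example of rational elliptic surfaces). So 1 and 2 follow from the theorems
of Deligne, André and Faltings on abelian varieties. Let `𝔥` be the Lie algebra of the operators on
`S` which kill a form fixed by `J`. It contains the derivatives of the cocharacters and is stable
under `J`. On a simple block with coprime multiplicities it contains `𝔰𝔩` (it is irreducible by the
theorem of Clifford, it has only one simple factor, and this factor is `𝔰𝔩` since two interior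
neighbours in a row of Pascal's triangle are never coprime); two blocks on which it acts
dependently are isomorphic or dual up to characters for `J`, hence for `G` by 2; so `𝔥` contains
`g D g⁻¹ - D` for the derivative `D` of a cocharacter and `g` in `G`.
-/

set_option autoImplicit false

namespace Pool.Agent.Helper48.Keep.MTC3

open IntermediateField MvPolynomial CategoryTheory Pool.Agent.Helper15.GD
  Pool.Agent.Helper15.MT Pool.Agent.Helper15.MU

/-- The equation `w ^ n = f₁(x, y) ^ e₁ * ⋯ * fᵣ(x, y) ^ eᵣ` for a plane curve of degree at most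
five, with the homogeneous equation `F₁ * ⋯ * Fᵣ = 0`, where `Fᵢ(x, y, 1) = fᵢ`. Either `n ≤ 8` or
`n = 10`, or `r ≤ 3` and the degree is at most four or at most one `Fᵢ` is linear. -/
def IsPlane (Ω : Type) {M : Type} [Field Ω] [Field M] [Algebra Ω M] (n : ℕ) (x y w : M) : Prop :=
  ∃ (r : ℕ) (d e : Fin r → ℕ) (f : Fin r → MvPolynomial (Fin 2) Ω),
    (∀ i, (f i).totalDegree ≤ d i) ∧ ∑ i, d i ≤ 5 ∧ n ∣ ∑ i, d i * e i ∧
    (n ≤ 8 ∨ n = 10 ∨ r ≤ 3 ∧ (∑ i, d i ≤ 4 ∨ (Finset.univ.filter fun i => d i = 1).card ≤ 1)) ∧
    w ^ n = ∏ i, aeval ![x, y] (f i) ^ e i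

/-- The equation `F(x, y, w ^ n) = 0`, where `F ≠ 0` and the degree of `F` for some weights `a`, `b`,
`2 * c` of the variables is at most `a + b + c`, not all weights are zero. For `(a, b, c) = (2, 3, 1)`
these are the elliptic surfaces `y ^ 2 + a₁ * x * y + a₃ * y = x ^ 3 + a₂ * x ^ 2 + a₄ * x + a₆`, where
`aᵢ` is a polynomial in `w ^ n` of degree at most `i / 2`. -/
def IsPullback (Ω : Type) {M : Type} [Field Ω] [Field M] [Algebra Ω M] (n : ℕ) (x y w : M) : Prop :=
  ∃ (a b c : ℕ) (F : MvPolynomial (Fin 3) Ω), 0 < a + b + c ∧ F ≠ 0 ∧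
    (∀ m ∈ F.support, a * m 0 + b * m 1 + 2 * c * m 2 ≤ a + b + c) ∧ aeval ![x, y, w ^ n] F = 0

/-- The elliptic surfaces `y ^ 2 + a₁ * x * y + a₃ * y = x ^ 3 + a₂ * x ^ 2 + a₄ * x + a₆`, where `aᵢ` is
a polynomial of degree at most `i / 2` in `w ^ n`; in particular `y ^ 2 = x ^ 3 + A(w ^ n) * x +
B(w ^ n)`, `deg A ≤ 2`, `deg B ≤ 3`. -/
theorem elliptic {Ω M : Type} [Field Ω] [Field M] [Algebra Ω M] (n : ℕ)
    (a₁ a₂ a₃ a₄ a₆ : Polynomial Ω) (h₁ : 2 * a₁.natDegree ≤ 1)
    (h₂ : 2 * a₂.natDegree ≤ 2) (h₃ : 2 * a₃.natDegree ≤ 3) (h₄ : 2 * a₄.natDegree ≤ 4)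
    (h₆ : 2 * a₆.natDegree ≤ 6) (x y w : M)
    (h : y ^ 2 + Polynomial.aeval (w ^ n) a₁ * x * y + Polynomial.aeval (w ^ n) a₃ * y =
      x ^ 3 + Polynomial.aeval (w ^ n) a₂ * x ^ 2 + Polynomial.aeval (w ^ n) a₄ * x +
        Polynomial.aeval (w ^ n) a₆) : IsPullback Ω n x y w :=
  Pool.Agent.Helper73.V7.elliptic_data n a₁ a₂ a₃ a₄ a₆ h₁ h₂ h₃ h₄ h₆ x y w h

/-- `M = Ω(x, y, w)`; `R ⊆ Ω(x, y)`, and `w ^ n`, `n = [M : Ω(x, y)]`, is as above; or
`R ⊆ B = Ω(x, y, w ^ n)`, `n = [M : B]`, and `x`, `y`, `w ^ n` satisfy an equation as above. -/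
def IsListed (Ω R M : Type) [Field Ω] [Field R] [Field M] [Algebra Ω M] [Algebra R M] : Prop :=
  ∃ x y w : M, adjoin Ω {x, y, w} = ⊤ ∧
    ((∀ r : R, algebraMap R M r ∈ adjoin Ω {x, y}) ∧
        IsPlane Ω (Module.finrank (adjoin Ω {x, y}) M) x y w ∨
      ∃ n : ℕ, (∀ r : R, algebraMap R M r ∈ adjoin Ω {x, y, w ^ n}) ∧
        Module.finrank (adjoin Ω {x, y, w ^ n}) M = n ∧ IsPullback Ω n x y w)

/-- `K / R` is a finite abelian extension, and its cyclic subextensions `M / R` are as above. -/
def IsCover {Ω K : Type} [Field Ω] [Field K] [Algebra Ω K] (R : IntermediateField Ω K) : Prop :=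
  FiniteDimensional R K ∧ IsGalois R K ∧ (∀ g h : K ≃ₐ[R] K, g * h = h * g) ∧
    ∀ M : IntermediateField R K, IsCyclic (M ≃ₐ[R] M) → IsListed Ω R M

/-- The motivated Mumford-Tate conjecture for the second cohomology of the surfaces dominated by
abelian covers of the plane in the list. -/
theorem result {Ω L G : Type} [Field Ω] [IsAlgClosed Ω] [CharZero Ω] [Field L] [IsAlgClosed L]
    [CharZero L] [Group G] (T : MotivicCoh Ω L G) (hT : T.IsMotivic) (J P : Subgroup G)
    (𝓜 : Set (Lˣ →* G)) (hJ : IsArithmetic T J P 𝓜) (K : Ext Ω) (R : IntermediateField Ω K)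
    (hR : IsCover R) (K₀ : Ext Ω) (j : K₀.Hom K) (hj : j.IsAlgebraic) :
    (∀ γ, ∃ δ ∈ P, T.act 2 K₀ γ = T.act 2 K₀ δ) ∧
    ∀ J' ≤ J, J'.relIndex J ≠ 0 → IsTate (T.act 2 K₀) (T.act 2 K₀) J' ∧
      ∀ S, IsCop (T.act 2 K₀) 𝓜 S → HasSameForms (T.act 2 K₀) J' S := by
  obtain ⟨hfin, hgal, hab, hM⟩ := hR
  refine Pool.Agent.Helper15.MU.cover hT hJ R hab (fun M hc => ?_) K₀ j hj
  have hG : IsGalois R M := (Pool.Agent.Helper75.WC.exists_restrict hab M).1
  obtain ⟨x, y, w, htop, ⟨hRM, h⟩ | ⟨n, hRM, hn, a, b, c, F, h⟩⟩ := hM M hc
  · obtain ⟨n, -, hn⟩ := Pool.Agent.Helper48.TT.LstN.of_lstM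
      (Pool.Agent.Helper75.WC.lstM_of_curve x y w hRM htop h)
    exact (Pool.Agent.Helper48.TT.row_of_lst _ hn).imp id fun h => ⟨n, .of_rowN h⟩
  · have h1 : Pool.Agent.Helper73.V7.IsPullback Ω R M :=
      ⟨n, a, b, c, F, x, y, w, hRM, htop, hn, h⟩
    exact h1.row.imp id fun h => Pool.Agent.Helper15.V7.RowB.of_row3 _ h

end Pool.Agent.Helper48.Keep.MTC3
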