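import Pool.Agent.Helper15.MU.Cover
import Pool.Agent.Helper15.V7.Lst
import Pool.Agent.Helper15.GD.Conv
import Pool.Agent.Helper48.V10.Ell
import Pool.Agent.Helper48.V9.Power
import Pool.Agent.Helper48.V9.Weighted

/-!
# The motivated Mumford-Tate conjecture for abelian covers and elliptic surfaces

Let `X` be a smooth projective surface over a finitely generated field `k` of characteristic zero,
`Ω` an algebraic closure of `k`, and `H` the `ℓ`-adic realisation, with coefficients in an
algebraically closed field `L`, of the motive `h^2(X) / N^1`. Let `G` be the motivic Galois group of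
the category of motives over `Ω` (André's motives), `P ≤ G` the Mumford-Tate group, `J ≤ G` the
identity component of the Zariski closure of the Galois group, and `𝓜` the set of the Hodge-Tate
cocharacters of `J` (they are conjugates of the Hodge cocharacters). The conjecture says that `P`,
`G` and `J` have the same image in the linear group of `H`. Here the groups of points in `L` are
used, and the second equality is stated with invariants: the images of the reductive groups `J ≤ G`
are equal if they have the same invariant multilinear forms on `H ⊕ H^∨`.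

Let `K` be the function field of a surface over `Ω`. Let `K` be a finite abelian extension of a field
`R`, and let every intermediate field `M` with a cyclic Galois group `Gal(M / R)` be uniruled
(contained in a field `E(θ)`, where `E` is algebraic over a field generated by one element), or
satisfy one of the following conditions (`IsCover`).

(1) `IsTwist`: `M = B(w)`, `w ^ n ∈ B`, `n = [M : B]`, for the function field `B` of some surface,
`R ⊆ B ⊆ M` (for example `B = R`), and for some `a`, `b` the threefold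
`v ^ a * (1 - v) ^ b = (s * w) ^ n` over `B` is uniruled, where `n` and `gcd(a, b)` are relatively
prime and `a`, `b`, `a + b` are not multiples of `n`. It is the quotient by the cyclic group of the
product of the surface with the curve `u ^ n = v ^ a * (1 - v) ^ b`. On a smooth model of `B` with a
branch curve with normal crossings, let `L⁻¹` be the eigensheaf of the cover for a faithful
character. For `n = 3, 4, 6` this curve can be chosen elliptic, and the threefold is uniruled if
`K_B + L` is not pseudo-effective, by the minimal model program.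

(2) `IsCurve`: `M = Ω(x, y, w)`, `R ⊆ Ω(x, y)`, `n = [M : Ω(x, y)]`, and
`w ^ n = f₁(x, y) ^ e₁ * ⋯ * fᵣ(x, y) ^ eᵣ`, branched along a curve in the plane, or in the weighted
plane `P(a, b, 1)`, with components of the degrees `dᵢ`, where

* either `n ≤ 10` for the plane, `n ≤ 6` for the weighted planes, and for every character of
  `Gal(M / Ω(x, y))` of order greater than two (and for the character of order two if `n = 2`)
  `h ^ {2, 0}` or `h ^ {0, 2}` is zero, if the curve has only nodes (for other singularities the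
  Hodge numbers are smaller); this is so for all plane curves of degree at most five;
* or `n` is arbitrary, there are at most three components in the plane, and the degree of the curve
  is at most four, or is five and there is at most one line.

No condition on the singularities of the curve is imposed.

Examples of `IsCover` (proved below), for every `n`:

* `elliptic_power`: all elliptic surfaces `y ^ 2 = x ^ 3 + A(w ^ n) * x + B(w ^ n)`, `deg A ≤ 2`,
  `deg B ≤ 3`, more generally `y ^ 2 + a₁ * x * y + a₃ * y = x ^ 3 + a₂ * x ^ 2 + a₄ * x + a₆`, where `aᵢ`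
  is a polynomial in `w ^ n` of degree at most `i / 2`. The geometric genus is `⌈n / 2⌉ - 1`, and
  there are five moduli. The proof: `w ^ n = v * (1 - v) / s ^ n` makes the threefold a family of
  rational elliptic surfaces over the `s`-line;
* `power`: `F(x, y, w ^ n) = 0`, where the degree of `F` for some weights `a`, `b`, `2 * c` of the
  variables is at most `a + b + c`;
* `double_power`, `n` odd: double planes `y ^ 2 = G(x, w ^ n) * y + F(x, w ^ n)`, where for the weights
  `a`, `1` of `x`, `w` the degrees of `G` and `F` are at most `S` and `2 * S`, `S = a + (n + 1) / 2`.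

Other examples of `IsTwist`:

* `w ^ n = f ^ s * h ^ t / g ^ (s + t)`, where `s`, `t` are coprime and the degree of
  `f - r ^ t * g + r ^ (s + t) * h` is at most `a + b + c` for some weights `a, b, c` of `x, y, r`, for
  example if `f`, `g`, `h` are of degree two (`Helper9/TR`);
* `w ^ n = f(x, y)`, if for some weights `a`, `b` of `x`, `y` and all `k` prime to `n`,
  `k * deg f ≤ n * (a + b)` or `(n - k) * deg f ≤ n * (a + b)` (`Helper73/V7/Power.lean`).

Let `X` be any surface which is dominated by a surface with the function field `K`. Then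

1. `P` and `G` have the same image in the linear group of `H`;
2. the endomorphisms of `H` and the bilinear forms on `H` which span lines stable under a subgroup
   of finite index of `J` span lines stable under `G`, and `H` is semisimple;
3. let `S ≤ H` be stable under `G`. If every simple `B ≤ S` of dimension at least two has a
   Hodge-Tate cocharacter with only two weights on `B`, whose multiplicities are coprime, then all
   multilinear forms on `S ⊕ S^∨` which are fixed by a subgroup of finite index of `J` are fixed by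
   `G`.

The condition in 3 holds for `S = H` if the eigenspaces for the characters of `Gal(K / R)` have
`h^(2,0) + h^(0,2) ≤ 1`: a cocharacter acts on `B` by scalars or as in 3, and if all of them act by
scalars, so does `P`, and `dim B = 1` by 1. So the conjecture holds for `H^2` of all abelian covers
of the plane branched along any curve of degree at most four (four lines in general position give
products of curves), for those of exponent three or four branched along any curve of degree five,
and for the elliptic surfaces above: for every character of the group of order `n` which acts on `w`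
the eigenspace has `h^(2,0) + h^(0,2) ≤ 1` (the holomorphic forms are `w ^ i * dw * dx / y`,
`0 ≤ i ≤ ⌈n / 2⌉ - 2`), and dimension at most six. It also holds if the eigenspaces are simple and,
for one of the conjugates of the character, the numbers `h^(2,0) + h^(0,2)` and `h^(1,1)` are
coprime, for example for the quintic surfaces `w ^ 5 = f₅` with simple eigenspaces, where they are
`3, 10` and `1, 12`. In general 3 is the conjecture for the largest part of `H` which satisfies the
condition.

The proof: up to characters `H` is embedded in the first cohomology of finitely many varieties (the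
eigenspace `E` of `H 2 M`, tensored with a line `E'` of `H 1` of a Fermat curve, comes from the
threefold `v ^ a * (1 - v) ^ b = s ^ n * w ^ n`, which is uniruled). So 1 and 2 follow from the
theorems of Deligne, André and Faltings on abelian varieties. Let `𝔥` be the Lie algebra of the
operators on `S` which kill a form fixed by `J`. It contains the derivatives of the cocharacters and
is stable under `J`. On a simple block with coprime multiplicities it contains `𝔰𝔩` (it is
irreducible by the theorem of Clifford, it has only one simple factor, and this factor is `𝔰𝔩`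
since two interior neighbours in a row of Pascal's triangle are never coprime); two blocks on which
it acts dependently are isomorphic or dual up to characters for `J`, hence for `G` by 2; so `𝔥`
contains `g D g⁻¹ - D` for the derivative `D` of a cocharacter and `g` in `G`.
-/

set_option autoImplicit false

namespace Pool.Agent.Results.MP_b8862a_ag.MumfordTateCovers

open IntermediateField MvPolynomial CategoryTheory Pool.Agent.Helper15.GD
  Pool.Agent.Helper15.MT Pool.Agent.Helper15.MU

/-- The equation `w ^ n = f₁(x, y) ^ e₁ * ⋯ * fᵣ(x, y) ^ eᵣ`, `n = [M : Ω(x, y)]`, `M = Ω(x, y, w)`,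
`R ⊆ Ω(x, y)`, for a curve with the equation `F₁ * ⋯ * Fᵣ = 0` in the weighted plane `P(a, b, 1)`,
where `Fᵢ(x, y, 1) = fᵢ` and `dᵢ = deg Fᵢ`. Either `n ≤ 6`, or `n ≤ 10` and `a = b = 1`, the curve is
arbitrary, and `h ^ {2, 0} * h ^ {0, 2} = 0` for all the characters of order different from one and
two (and for the character of order two if `n = 2`), if the curve has only nodes: the Hodge number
`h ^ {2, 0}` of the character `k` or `-k` is zero if `∑ dᵢ * (k * eᵢ % n) ≤ n * (a + b)` (if and only
if, for `a = b = 1`). Or `a = b = 1`, there are at most three components and the degree is at most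
four, or five and at most one `Fᵢ` is linear. -/
def IsCurve (Ω R M : Type) [Field Ω] [Field R] [Field M] [Algebra Ω M] [Algebra R M] : Prop :=
  ∃ (n a b r : ℕ) (d e : Fin r → ℕ) (f : Fin r → MvPolynomial (Fin 2) Ω) (x y w : M),
    (∀ r : R, algebraMap R M r ∈ adjoin Ω {x, y}) ∧ adjoin Ω {x, y, w} = ⊤ ∧
    Module.finrank (adjoin Ω {x, y}) M = n ∧
    (∀ i, ∀ m ∈ (f i).support, a * m 0 + b * m 1 ≤ d i) ∧ n ∣ ∑ i, d i * e i ∧
    ((0 < a + b ∧ n ≤ 6 ∨ a = 1 ∧ b = 1 ∧ n ≤ 10) ∧
        (∀ k < n, 2 * k ≠ n ∨ n = 2 → ∑ i, d i * (k * e i % n) ≤ n * (a + b) ∨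
          ∑ i, d i * ((n - k) * e i % n) ≤ n * (a + b)) ∨
      a = 1 ∧ b = 1 ∧ r ≤ 3 ∧
        (∑ i, d i ≤ 4 ∨ ∑ i, d i = 5 ∧ (Finset.univ.filter fun i => d i = 1).card ≤ 1)) ∧
    w ^ n = ∏ i, aeval ![x, y] (f i) ^ e i

/-- `M = B(w)`, `w ^ n ∈ B`, `n = [M : B]`, where `B = Ω(x, y, z)` is the function field of a surface
and contains `R`, and the threefold `v ^ a * (1 - v) ^ b = (s * w) ^ n` over `B` is uniruled. -/
def IsTwist (Ω R M : Type) [Field Ω] [Field R] [Field M] [Algebra Ω M] [Algebra R M] : Prop :=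
  ∃ (n a b : ℕ) (x y z w : M), IsAlgebraic (adjoin Ω {x, y}) z ∧
    (∀ r : R, algebraMap R M r ∈ adjoin Ω {x, y, z}) ∧ adjoin Ω {x, y, z, w} = ⊤ ∧
    Module.finrank (adjoin Ω {x, y, z}) M = n ∧ w ^ n ∈ adjoin Ω {x, y, z} ∧
    (a.gcd b).Coprime n ∧ ¬ n ∣ a ∧ ¬ n ∣ b ∧ ¬ n ∣ a + b ∧
    ∀ (N : Ext Ω) (g : M →ₐ[Ω] N) (v s : N), Transcendental g.fieldRange v →
      v ^ a * (1 - v) ^ b = (s * g w) ^ n →
      (⟨adjoin Ω {g x, g y, g z, v, s}⟩ : Ext Ω).Uniruled 3

/-- `M` is uniruled, or `M / R` satisfies one of the conditions. -/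
def IsListed (Ω R M : Type) [Field Ω] [Field R] [Field M] [Algebra Ω M] [Algebra R M] : Prop :=
  (⟨M⟩ : Ext Ω).Uniruled 2 ∨ IsTwist Ω R M ∨ IsCurve Ω R M

/-- `K` is a finite abelian extension of a field `R`, and every field `M` between them with a cyclic
group `Gal(M / R)` is in the list. -/
def IsCover (Ω K : Type) [Field Ω] [Field K] [Algebra Ω K] : Prop :=
  ∃ R : IntermediateField Ω K, FiniteDimensional R K ∧ IsGalois R K ∧
    (∀ g h : K ≃ₐ[R] K, g * h = h * g) ∧
    ∀ M : IntermediateField R K, IsCyclic (M ≃ₐ[R] M) → IsListed Ω R M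

theorem IsCurve.row {Ω R M : Type} [Field Ω] [IsAlgClosed Ω] [Field R] [Field M] [Algebra Ω R]
    [Algebra Ω M] [Algebra R M] [IsScalarTower Ω R M] [FiniteDimensional R M] [IsGalois R M]
    (h : IsCurve Ω R M) :
    Pool.Agent.Helper75.QC.Uniruled Ω M 2 ∨ Pool.Agent.Helper35.V7.LstN Ω R M := by
  obtain ⟨n, a, b, r, d, e, f, x, y, w, hR, hM, rfl, hf, hdvd, h, hw⟩ := h
  have hdeg : a = 1 → b = 1 → ∀ i, (f i).totalDegree ≤ d i := by
    rintro rfl rfl i
    refine Finset.sup_le fun m hm => ?_
    have h1 := hf i m hm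
    rw [one_mul, one_mul] at h1
    rw [Finsupp.sum_fintype _ _ (fun _ => rfl), Fin.sum_univ_two]
    exact h1
  have hplane : ∀ h1 : a = 1, ∀ h2 : b = 1, _ → _ := fun h1 h2 h3 =>
    Pool.Agent.Helper48.V7.IsListed.row (Ω := Ω) (R := R) (M := M)
      ⟨x, y, w, hR, hM, Or.inl ⟨r, d, e, f, hdeg h1 h2, hdvd, h3, hw⟩⟩
  rcases h with ⟨⟨hab, hn⟩ | ⟨h1, h2, hn⟩, hnat⟩ | ⟨h1, h2, h3⟩
  · refine (Pool.Agent.Helper48.V9.IsWCurve.row (R := R) x y w hR hM
      ⟨a, b, r, d, e, f, hab, hn, hf, fun k hk hkn => hnat k hk ?_, hw⟩).imp id Or.inl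
    by_contra hcon
    push Not at hcon
    obtain ⟨h1, h2⟩ := hcon
    have h3 : k ∣ 1 := by
      rw [← hkn]
      exact Nat.dvd_gcd dvd_rfl ⟨2, by rw [← h1, mul_comm]⟩
    have h4 := Nat.dvd_one.1 h3
    omega
  · subst h1 h2
    refine hplane rfl rfl (Or.inl ⟨hn, fun k hk h3 => ?_⟩)
    have h4 := hnat k hk h3
    rwa [mul_comm 2]
  · exact hplane h1 h2 (Or.inr h3)

section Examples

variable {Ω : Type} [Field Ω] {K : Type} [Field K] [Algebra Ω K]

/-- from the data of the libraries -/
theorem isTwist_of {R M : Type} [Field R] [Field M] [Algebra Ω M] [Algebra R M]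
    (h : Pool.Agent.Helper35.V7.Row3 Ω R M) : IsTwist Ω R M := by
  obtain ⟨n, a, b, x, y, z, w, h1, h2, h3, h4, h5, h6, h7, h8, h9, h10⟩ :=
    Pool.Agent.Helper73.V7.IsTwist.of_row3 h
  exact ⟨n, a, b, x, y, z, w, h1, h2, h3, h4, h5, h6, h7, h8, h9,
    fun N g v s hv hs => Ext.uniruled_of (h10 N g v s hv hs)⟩

theorem isCover_of_rows {x y w : K} {n : ℕ}
    (h2 : ∀ m, n = 2 * m → (⟨adjoin Ω {x, y, w ^ m}⟩ : Ext Ω).Uniruled 2)
    (h : ∃ R : IntermediateField Ω K, FiniteDimensional R K ∧ IsGalois R K ∧
      (∀ g h : K ≃ₐ[R] K, g * h = h * g) ∧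
      ∀ M : IntermediateField R K, Pool.Agent.Helper75.QC.Uniruled Ω M 2 ∨
        Pool.Agent.Helper35.V7.Row3 Ω R M ∨
        ∃ m, n = 2 * m ∧ M.restrictScalars Ω = adjoin Ω {x, y, w ^ m}) : IsCover Ω K := by
  obtain ⟨R, h3, h4, h5, h6⟩ := h
  refine ⟨R, h3, h4, h5, fun M _ => ?_⟩
  rcases h6 M with h | h | ⟨m, hm, hM⟩
  · exact Or.inl (Ext.uniruled_of h)
  · exact Or.inr (Or.inl (isTwist_of h))
  · have h7 := h2 m hm
    rw [← hM] at h7
    exact Or.inl h7

variable [IsAlgClosed Ω]

/-- **Pullbacks.** `K = Ω(x, y, w)`, `n = [K : Ω(x, y, w ^ n)]` is not zero in `Ω`, and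
`F(x, y, w ^ n) = 0` for a polynomial `F ≠ 0` of degree at most `a + b + c` for some weights
`a, b, 2 * c` of its variables. -/
theorem power (n : ℕ) (hn : (n : Ω) ≠ 0) (a b c : ℕ) (F : MvPolynomial (Fin 3) Ω) (x y w : K)
    (hK : adjoin Ω {x, y, w} = ⊤) (hd : Module.finrank (adjoin Ω {x, y, w ^ n}) K = n)
    (habc : 0 < a + b + c) (hF : F ≠ 0)
    (hdeg : ∀ m ∈ F.support, a * m 0 + b * m 1 + 2 * c * m 2 ≤ a + b + c)
    (h0 : aeval ![x, y, w ^ n] F = 0) : IsCover Ω K := by
  obtain ⟨R, h1, h2, h3, h4⟩ :=
    Pool.Agent.Helper48.V9.power_rows hn a b c F x y w hK hd habc hF hdeg h0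
  exact ⟨R, h1, h2, h3, fun M _ =>
    (h4 M).imp Ext.uniruled_of fun h => Or.inl (isTwist_of h)⟩

/-- **Elliptic surfaces.** `y ^ 2 + a₁ * x * y + a₃ * y = x ^ 3 + a₂ * x ^ 2 + a₄ * x + a₆`, where `aᵢ` is
a polynomial of degree at most `i / 2` in `w ^ n`, `K = Ω(x, y, w)`, and `n = [K : Ω(x, y, w ^ n)]` is
not zero in `Ω`. -/
theorem elliptic_power (n : ℕ) (hn : (n : Ω) ≠ 0) (a₁ a₂ a₃ a₄ a₆ : Polynomial Ω)
    (h₁ : 2 * a₁.natDegree ≤ 1) (h₂ : 2 * a₂.natDegree ≤ 2) (h₃ : 2 * a₃.natDegree ≤ 3)
    (h₄ : 2 * a₄.natDegree ≤ 4) (h₆ : 2 * a₆.natDegree ≤ 6) (x y w : K)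
    (hK : adjoin Ω {x, y, w} = ⊤) (hd : Module.finrank (adjoin Ω {x, y, w ^ n}) K = n)
    (h : y ^ 2 + Polynomial.aeval (w ^ n) a₁ * x * y + Polynomial.aeval (w ^ n) a₃ * y =
      x ^ 3 + Polynomial.aeval (w ^ n) a₂ * x ^ 2 + Polynomial.aeval (w ^ n) a₄ * x +
        Polynomial.aeval (w ^ n) a₆) : IsCover Ω K := by
  obtain ⟨a, b, c, F, habc, hF, hdeg, h0⟩ :=
    Pool.Agent.Helper73.V7.elliptic_data n a₁ a₂ a₃ a₄ a₆ h₁ h₂ h₃ h₄ h₆ x y w h
  exact power n hn a b c F x y w hK hd habc hF hdeg h0

/-- **Double planes.** `y ^ 2 = G(x, w ^ n) * y + F(x, w ^ n)`, `K = Ω(x, y, w)`,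
`n = [K : Ω(x, y, w ^ n)]` is odd and not zero in `Ω`, and for the weights `a`, `1` of `x`, `w` the
degrees of `G`, `F` are at most `S`, `2 * S`, `S = a + (n + 1) / 2`. -/
theorem double_power (n : ℕ) (hn : (n : Ω) ≠ 0) (hodd : Odd n) (a : ℕ)
    (F G : MvPolynomial (Fin 2) Ω) (x y w : K) (hK : adjoin Ω {x, y, w} = ⊤)
    (hd : Module.finrank (adjoin Ω {x, y, w ^ n}) K = n)
    (hF : ∀ m ∈ F.support, a * m 0 + n * m 1 ≤ 2 * (a + (n + 1) / 2))
    (hG : ∀ m ∈ G.support, a * m 0 + n * m 1 ≤ a + (n + 1) / 2)
    (hy : y ^ 2 = aeval ![x, w ^ n] G * y + aeval ![x, w ^ n] F) : IsCover Ω K := by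
  have h1 : a + (n + 1) / 2 = a + 1 + n / 2 := by
    obtain ⟨k, rfl⟩ := hodd
    omega
  rw [h1] at hF hG
  refine isCover_of_rows (fun m hm => ?_)
    (Pool.Agent.Helper48.V10.dbl_rows' hn a F G x y w hK hd hF hG hy)
  obtain ⟨k, rfl⟩ := hodd
  omega

end Examples

/-- **The motivated Mumford-Tate conjecture** for the second cohomology of the surfaces dominated by
the abelian covers in the list. -/
theorem result {Ω L G : Type} [Field Ω] [IsAlgClosed Ω] [CharZero Ω] [Field L] [IsAlgClosed L]
    [CharZero L] [Group G] (T : MotivicCoh Ω L G) (hT : T.IsMotivic) (J P : Subgroup G)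
    (𝓜 : Set (Lˣ →* G)) (hJ : IsArithmetic T J P 𝓜) (K : Ext Ω) (hK : IsCover Ω K)
    (K₀ : Ext Ω) (j : K₀.Hom K) (hj : j.IsAlgebraic) :
    (∀ γ, ∃ δ ∈ P, T.act 2 K₀ γ = T.act 2 K₀ δ) ∧
    ∀ J' ≤ J, J'.relIndex J ≠ 0 → IsTate (T.act 2 K₀) (T.act 2 K₀) J' ∧
      ∀ S, IsCop (T.act 2 K₀) 𝓜 S → HasSameForms (T.act 2 K₀) J' S := by
  obtain ⟨R, hfin, hgal, hab, hM⟩ := hK
  refine Pool.Agent.Helper15.MU.cover hT hJ R hab (fun M hc => ?_) K₀ j hj
  have hG : IsGalois R M := (Pool.Agent.Helper75.WC.exists_restrict hab M).1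
  have hto : ∀ {E : Ext Ω} {i : ℕ}, E.Uniruled i → Pool.Agent.Helper75.QC.Uniruled Ω E i := by
    rintro E i ⟨E', g', S, θ, hS, hk⟩
    exact ⟨E', _, _, g', S, θ, hS, hk⟩
  rcases hM M hc with h | ⟨n, a, b, x, y, z, w, hz, hR, hM', hn, hw, hab', h1, h2, h3, huni⟩ | h
  · exact Or.inl (hto h)
  · exact Or.inr (Pool.Agent.Helper15.V7.RowB.of_row3 _
      (Pool.Agent.Helper73.V7.IsTwist.row ⟨n, a, b, x, y, z, w, hz, hR, hM',
        hn, hw, hab', h1, h2, h3, fun N _ _ g v s hv hs => hto (huni ⟨N⟩ g v s hv hs)⟩))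
  · exact h.row.elim Or.inl (Pool.Agent.Helper15.V7.rowB_of_lst _)

end Pool.Agent.Results.MP_b8862a_ag.MumfordTateCovers
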